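import Mathlib

set_option autoImplicit false
set_option linter.unusedSectionVars false

/-!
# The game Grundy number can exceed the game chromatic number

Positions of the two colouring games are partial colourings `c : V → Option ℕ`
(`c v = none` means that `v` is still uncoloured; the colours are `0, …, k-1`).

The graph: 11 vertices `0, …, 10`; the sets `A = {2,3,4}` and `B = {8,9,10}` are triangles, and
the other edges are `0-1, 0-7`, all pairs `{0} x B`, all pairs `{1} x A`, `1-6, 1-7`, all pairs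
`A x {5}`, all pairs `A x {7}`, `5-6`, all pairs `{5} x B` and all pairs `{7} x B` (29 edges).
`{1} ∪ A ∪ {7}` is a clique of size 5.

Proof: winning strategies are stored as numbers (`cert1`, `cert2`, `cert3`: the sequence of replies
in depth first order) and verified by small checkers, which are proved sound and evaluated by the
kernel.  Branches end at safe positions, where every uncoloured vertex has more free colours than
uncoloured neighbours (Alice wins both games from such positions, `safe_wins`).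
-/

namespace Pool.Agent.Results.MP_e75014_co.GameGrundy

open Function

/-- In the position `c` the uncoloured vertex `v` may receive the colour `a` (out of the `k` colours
`0, …, k-1`): no neighbour of `v` already has colour `a`. -/
def Legal {V : Type} (G : SimpleGraph V) (k : ℕ) (c : V → Option ℕ) (v : V) (a : ℕ) : Prop :=
  c v = none ∧ a < k ∧ ∀ w, G.Adj v w → c w ≠ some a

/-- The additional rule of the greedy game: `a` is the smallest colour not used on a coloured
neighbour of `v`. -/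
def GreedyLegal {V : Type} (G : SimpleGraph V) (k : ℕ) (c : V → Option ℕ) (v : V) (a : ℕ) : Prop :=
  Legal G k c v a ∧ ∀ b, b < a → ∃ w, G.Adj v w ∧ c w = some b

/-- Every uncoloured vertex still has a legal colour (otherwise Bob has won). -/
def Alive {V : Type} (G : SimpleGraph V) (k : ℕ) (c : V → Option ℕ) : Prop :=
  ∀ u, c u = none → ∃ b, Legal G k c u b

/-- `AliceWins G k move t c`: Alice wins the game with `k` colours on `G` from the position `c`, when
`t = true` (Alice to move) or `t = false` (Bob to move), where the allowed moves are given by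
`move` (`Legal G k` for the colouring game, `GreedyLegal G k` for the greedy game). -/
inductive AliceWins {V : Type} [DecidableEq V] (G : SimpleGraph V) (k : ℕ)
    (move : (V → Option ℕ) → V → ℕ → Prop) : Bool → (V → Option ℕ) → Prop
  /-- all vertices are coloured -/
  | finished (t : Bool) (c : V → Option ℕ) (h : ∀ v, c v ≠ none) : AliceWins G k move t c
  /-- Alice has a move to a position (with Bob to move) from which she wins -/
  | alice (c : V → Option ℕ) (v : V) (a : ℕ) (halive : Alive G k c) (hm : move c v a)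
      (hw : AliceWins G k move false (update c v (some a))) : AliceWins G k move true c
  /-- all moves of Bob lead to a position (with Alice to move) from which she wins -/
  | bob (c : V → Option ℕ) (halive : Alive G k c)
      (hw : ∀ v a, move c v a → AliceWins G k move true (update c v (some a))) :
      AliceWins G k move false c

/-- The game chromatic number: the least `k ≥ 1` for which Alice (moving first) wins the colouring
game with `k` colours. -/
noncomputable def gameChromaticNumber {V : Type} [DecidableEq V] (G : SimpleGraph V) : ℕ :=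
  sInf {k | 1 ≤ k ∧ AliceWins G k (Legal G k) true (fun _ => none)}

/-- The game Grundy number: the least `k ≥ 1` for which Alice (moving first) wins the greedy
colouring game with `k` colours. -/
noncomputable def gameGrundyNumber {V : Type} [DecidableEq V] (G : SimpleGraph V) : ℕ :=
  sInf {k | 1 ≤ k ∧ AliceWins G k (GreedyLegal G k) true (fun _ => none)}

/-! ## General lemmas -/

section General

variable {V : Type} [DecidableEq V] {G : SimpleGraph V} {k : ℕ}

theorem AliceWins.isAlive {move : (V → Option ℕ) → V → ℕ → Prop} {t : Bool} {c : V → Option ℕ}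
    (h : AliceWins G k move t c) : Alive G k c := by
  cases h with
  | finished t c h => intro u hu; exact absurd hu (h u)
  | alice c v a ha _ _ => exact ha
  | bob c ha _ => exact ha

theorem alive_of_update {c : V → Option ℕ} {v : V} {a : ℕ} (hl : Legal G k c v a)
    (h : Alive G k (update c v (some a))) : Alive G k c := by
  intro u hu
  by_cases huv : u = v
  · subst huv; exact ⟨a, hl⟩
  · obtain ⟨b, hb1, hb2, hb3⟩ := h u (by rw [update_of_ne huv]; exact hu)
    refine ⟨b, hu, hb2, fun w hw hcw => ?_⟩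
    by_cases hwv : w = v
    · subst hwv; rw [hl.1] at hcw; exact absurd hcw (by simp)
    · exact hb3 w hw (by rw [update_of_ne hwv]; exact hcw)

/-- Greedy colours exist in alive positions. -/
theorem exists_greedy {c : V → Option ℕ} {u : V} (h : ∃ b, Legal G k c u b) :
    ∃ b, GreedyLegal G k c u b := by
  classical
  refine ⟨Nat.find h, Nat.find_spec h, fun b hb => ?_⟩
  have h1 := Nat.find_min h hb
  have h2 := (Nat.find_spec h)
  unfold Legal at h1
  push Not at h1
  obtain ⟨w, hw, hc⟩ := h1 h2.1 (hb.trans h2.2.1)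
  exact ⟨w, hw, hc⟩

theorem greedy_unique {c : V → Option ℕ} {u : V} {a b : ℕ} {k' : ℕ} (h : GreedyLegal G k c u a)
    (h' : GreedyLegal G k' c u b) : a = b := by
  rcases lt_trichotomy a b with hlt | heq | hgt
  · obtain ⟨w, hw, hc⟩ := h'.2 a hlt
    exact absurd hc (h.1.2.2 w hw)
  · exact heq
  · obtain ⟨w, hw, hc⟩ := h.2 b hgt
    exact absurd hc (h'.1.2.2 w hw)

/-- The greedy game is monotone in the number of colours. -/
theorem greedy_mono {k' : ℕ} (hk : k ≤ k') {t : Bool} {c : V → Option ℕ}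
    (h : AliceWins G k (GreedyLegal G k) t c) : AliceWins G k' (GreedyLegal G k') t c := by
  induction h with
  | finished t c h => exact AliceWins.finished t c h
  | alice c v a ha hm hw ih =>
    refine AliceWins.alice c v a (fun u hu => ?_) ⟨⟨hm.1.1, hm.1.2.1.trans_le hk, hm.1.2.2⟩, hm.2⟩ ih
    obtain ⟨b, h1, h2, h3⟩ := ha u hu
    exact ⟨b, h1, h2.trans_le hk, h3⟩
  | bob c ha hw ih =>
    refine AliceWins.bob c (fun u hu => ?_) (fun v a hm => ?_)
    · obtain ⟨b, h1, h2, h3⟩ := ha u hu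
      exact ⟨b, h1, h2.trans_le hk, h3⟩
    · obtain ⟨b, hb⟩ := exists_greedy (ha v hm.1.1)
      have := greedy_unique hb hm
      subst this
      exact ih v b hb

/-- Renaming the colours. -/
theorem perm_wins (π : Equiv.Perm ℕ) (hπ : ∀ a, π a < k ↔ a < k) {t : Bool} {c : V → Option ℕ}
    (h : AliceWins G k (Legal G k) t c) :
    AliceWins G k (Legal G k) t (fun v => (c v).map π) := by
  have hnone : ∀ (c : V → Option ℕ) v, (c v).map π = none ↔ c v = none := fun c v => by simp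
  have hleg : ∀ (c : V → Option ℕ) v a, Legal G k c v a → Legal G k (fun v => (c v).map π) v (π a) := by
    intro c v a h
    refine ⟨(hnone c v).2 h.1, (hπ a).2 h.2.1, fun w hw hc => ?_⟩
    simp only [Option.map_eq_some_iff] at hc
    obtain ⟨b, hb, hb'⟩ := hc
    have := π.injective hb'
    subst this
    exact h.2.2 w hw hb
  have hleg' : ∀ (c : V → Option ℕ) v a, Legal G k (fun v => (c v).map π) v a →
      Legal G k c v (π.symm a) := by
    intro c v a h
    refine ⟨(hnone c v).1 h.1, ?_, fun w hw hc => ?_⟩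
    · rw [← hπ]; simpa using h.2.1
    · refine h.2.2 w hw ?_
      simp [hc]
  have hupd : ∀ (c : V → Option ℕ) v a,
      (fun u => (update c v (some a) u).map π) = update (fun v => (c v).map π) v (some (π a)) := by
    intro c v a
    funext u
    by_cases huv : u = v
    · subst huv; simp
    · simp [update_of_ne huv]
  have halive : ∀ c : V → Option ℕ, Alive G k c → Alive G k (fun v => (c v).map π) := by
    intro c h u hu
    obtain ⟨b, hb⟩ := h u ((hnone c u).1 hu)
    exact ⟨π b, hleg c u b hb⟩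
  induction h with
  | finished t c h => exact AliceWins.finished t _ (fun v hv => h v ((hnone c v).1 hv))
  | alice c v a ha hm hw ih =>
    refine AliceWins.alice _ v (π a) (halive c ha) (hleg c v a hm) ?_
    rw [← hupd]; exact ih
  | bob c ha hw ih =>
    refine AliceWins.bob _ (halive c ha) (fun v a hm => ?_)
    have h2 := ih v (π.symm a) (hleg' c v a hm)
    rw [hupd] at h2
    simpa using h2

/-- Two colours that are not used in `c` are interchangeable. -/
theorem swap_unused {c : V → Option ℕ} {v : V} {a b : ℕ} {t : Bool} (ha : a < k) (hb : b < k)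
    (ha' : ∀ w, c w ≠ some a) (hb' : ∀ w, c w ≠ some b)
    (h : AliceWins G k (Legal G k) t (update c v (some a))) :
    AliceWins G k (Legal G k) t (update c v (some b)) := by
  have h1 := perm_wins (Equiv.swap a b) (fun x => by
    by_cases hx : x = a
    · subst hx; simp [ha, hb]
    · by_cases hx' : x = b
      · subst hx'; simp [ha, hb]
      · rw [Equiv.swap_apply_of_ne_of_ne hx hx']) h
  convert h1 using 1
  funext u
  by_cases huv : u = v
  · subst huv; simp
  · simp only [update_of_ne huv]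
    cases hcu : c u with
    | none => rfl
    | some x =>
      have hx : x ≠ a := fun h => ha' u (by rw [hcu, h])
      have hx' : x ≠ b := fun h => hb' u (by rw [hcu, h])
      simp [Equiv.swap_apply_of_ne_of_ne hx hx']

open Classical in
/-- A position is safe if every uncoloured vertex has more legal colours than uncoloured
neighbours. -/
def Safe [Fintype V] (G : SimpleGraph V) (k : ℕ) (c : V → Option ℕ) : Prop :=
  ∀ v, c v = none →
    (Finset.univ.filter (fun w => G.Adj v w ∧ c w = none)).card <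
      ((Finset.range k).filter (fun a => ∀ w, G.Adj v w → c w ≠ some a)).card

theorem safe_alive [Fintype V] {c : V → Option ℕ} (h : Safe G k c) : Alive G k c := by
  classical
  intro u hu
  have h1 := h u hu
  have h2 : 0 < ((Finset.range k).filter (fun a => ∀ w, G.Adj u w → c w ≠ some a)).card :=
    lt_of_le_of_lt (Nat.zero_le _) h1
  obtain ⟨b, hb⟩ := Finset.card_pos.1 h2
  rw [Finset.mem_filter, Finset.mem_range] at hb
  exact ⟨b, hu, hb.1, hb.2⟩

theorem safe_update [Fintype V] {c : V → Option ℕ} (h : Safe G k c) {v₀ : V} {a₀ : ℕ}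
    (hl : Legal G k c v₀ a₀) : Safe G k (update c v₀ (some a₀)) := by
  classical
  intro v hv
  have hne : v ≠ v₀ := by rintro rfl; simp at hv
  rw [update_of_ne hne] at hv
  have h1 := h v hv
  by_cases hadj : G.Adj v v₀
  · have e1 : (Finset.univ.filter (fun w => G.Adj v w ∧ update c v₀ (some a₀) w = none)) ⊆
        (Finset.univ.filter (fun w => G.Adj v w ∧ c w = none)).erase v₀ := by
      intro w hw
      rw [Finset.mem_filter] at hw
      have hw0 : w ≠ v₀ := by rintro rfl; simp at hw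
      rw [Finset.mem_erase, Finset.mem_filter]
      refine ⟨hw0, Finset.mem_univ _, hw.2.1, ?_⟩
      have := hw.2.2
      rwa [update_of_ne hw0] at this
    have e2 : ((Finset.range k).filter (fun a => ∀ w, G.Adj v w → c w ≠ some a)).erase a₀ ⊆
        (Finset.range k).filter (fun a => ∀ w, G.Adj v w → update c v₀ (some a₀) w ≠ some a) := by
      intro a ha
      rw [Finset.mem_erase, Finset.mem_filter] at ha
      rw [Finset.mem_filter]
      refine ⟨ha.2.1, fun w hw => ?_⟩
      by_cases hw0 : w = v₀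
      · subst hw0; simp only [update_self]; intro h; exact ha.1 (Option.some.inj h).symm
      · rw [update_of_ne hw0]; exact ha.2.2 w hw
    have m1 : v₀ ∈ (Finset.univ.filter (fun w => G.Adj v w ∧ c w = none)) := by
      rw [Finset.mem_filter]; exact ⟨Finset.mem_univ _, hadj, hl.1⟩
    have c1 := Finset.card_le_card e1
    rw [Finset.card_erase_of_mem m1] at c1
    have c2 := Finset.card_le_card e2
    have c3 := Finset.pred_card_le_card_erase (s := (Finset.range k).filter
      (fun a => ∀ w, G.Adj v w → c w ≠ some a)) (a := a₀)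
    have c4 : 0 < (Finset.univ.filter (fun w => G.Adj v w ∧ c w = none)).card :=
      Finset.card_pos.2 ⟨_, m1⟩
    omega
  · have e1 : (Finset.univ.filter (fun w => G.Adj v w ∧ update c v₀ (some a₀) w = none)) ⊆
        (Finset.univ.filter (fun w => G.Adj v w ∧ c w = none)) := by
      intro w hw
      rw [Finset.mem_filter] at hw ⊢
      have hw0 : w ≠ v₀ := by rintro rfl; simp at hw
      refine ⟨Finset.mem_univ _, hw.2.1, ?_⟩
      have := hw.2.2
      rwa [update_of_ne hw0] at this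
    have e2 : ((Finset.range k).filter (fun a => ∀ w, G.Adj v w → c w ≠ some a)) ⊆
        (Finset.range k).filter (fun a => ∀ w, G.Adj v w → update c v₀ (some a₀) w ≠ some a) := by
      intro a ha
      rw [Finset.mem_filter] at ha ⊢
      refine ⟨ha.1, fun w hw => ?_⟩
      have hw0 : w ≠ v₀ := by rintro rfl; exact hadj hw
      rw [update_of_ne hw0]; exact ha.2 w hw
    have c1 := Finset.card_le_card e1
    have c2 := Finset.card_le_card e2
    omega

/-- Alice wins from safe positions, in both games. -/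
theorem safe_wins [Fintype V] {move : (V → Option ℕ) → V → ℕ → Prop}
    (h1 : ∀ c v a, GreedyLegal G k c v a → move c v a) (h2 : ∀ c v a, move c v a → Legal G k c v a) :
    ∀ (m : ℕ) (t : Bool) (c : V → Option ℕ),
      (Finset.univ.filter (fun v => (c v).isNone)).card ≤ m → Safe G k c →
      AliceWins G k move t c := by
  have key : ∀ (c : V → Option ℕ) (v : V) (a : ℕ), c v = none →
      (Finset.univ.filter (fun w => (update c v (some a) w).isNone)).card <
        (Finset.univ.filter (fun w => (c w).isNone)).card := by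
    intro c v a hv
    apply Finset.card_lt_card
    rw [Finset.ssubset_iff_of_subset]
    · exact ⟨v, by simp [hv], by simp⟩
    · intro w hw
      simp only [Finset.mem_filter, Finset.mem_univ, true_and] at hw ⊢
      by_cases hwv : w = v
      · subst hwv; simp at hw
      · rwa [update_of_ne hwv] at hw
  intro m
  induction m with
  | zero =>
    intro t c hc hs
    refine AliceWins.finished t c (fun v hv => ?_)
    have : v ∈ (Finset.univ.filter (fun v => (c v).isNone)) := by simp [hv]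
    have := Finset.card_pos.2 ⟨v, this⟩
    omega
  | succ m ih =>
    intro t c hc hs
    by_cases hall : ∀ v, c v ≠ none
    · exact AliceWins.finished t c hall
    · push Not at hall
      obtain ⟨v, hv⟩ := hall
      cases t with
      | true =>
        obtain ⟨a, ha⟩ := exists_greedy (safe_alive hs v hv)
        refine AliceWins.alice c v a (safe_alive hs) (h1 c v a ha) (ih _ _ ?_ (safe_update hs ha.1))
        have := key c v a hv
        omega
      | false =>
        refine AliceWins.bob c (safe_alive hs) (fun w a hm => ih _ _ ?_ (safe_update hs (h2 c w a hm)))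
        have := key c w a (h2 c w a hm).1
        omega

/-- If Alice wins then `G` is properly `k`-colourable. -/
theorem colorable_of_wins {t : Bool} {c : V → Option ℕ}
    (h : AliceWins G k (Legal G k) t c) (hc : ∀ v a, c v = some a → a < k)
    (hp : ∀ v w a, G.Adj v w → c v = some a → c w ≠ some a) :
    ∃ f : V → ℕ, (∀ v, f v < k) ∧ ∀ v w, G.Adj v w → f v ≠ f w := by
  have step : ∀ (c : V → Option ℕ) (v : V) (a : ℕ), Legal G k c v a →
      (∀ v a, c v = some a → a < k) → (∀ v w a, G.Adj v w → c v = some a → c w ≠ some a) →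
      (∀ u b, update c v (some a) u = some b → b < k) ∧
      (∀ u w b, G.Adj u w → update c v (some a) u = some b → update c v (some a) w ≠ some b) := by
    intro c v a hl hc hp
    constructor
    · intro u b hu
      by_cases huv : u = v
      · subst huv; simp at hu; subst hu; exact hl.2.1
      · rw [update_of_ne huv] at hu; exact hc u b hu
    · intro u w b hadj hu hw
      by_cases huv : u = v
      · subst huv
        simp only [update_self, Option.some.injEq] at hu
        subst hu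
        have hwu : w ≠ u := hadj.ne'
        rw [update_of_ne hwu] at hw
        exact hl.2.2 w hadj hw
      · rw [update_of_ne huv] at hu
        by_cases hwv : w = v
        · subst hwv
          simp only [update_self, Option.some.injEq] at hw
          subst hw
          exact hl.2.2 u hadj.symm hu
        · rw [update_of_ne hwv] at hw
          exact hp u w b hadj hu hw
  induction h with
  | finished t c h =>
    have : ∀ v, ∃ a, c v = some a := fun v => Option.ne_none_iff_exists'.1 (h v)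
    choose f hf using this
    exact ⟨f, fun v => hc v _ (hf v), fun v w hadj he => hp v w (f v) hadj (hf v) (he ▸ hf w)⟩
  | alice c v a ha hm hw ih =>
    obtain ⟨s1, s2⟩ := step c v a hm hc hp
    exact ih s1 s2
  | bob c ha hw ih =>
    by_cases hall : ∀ v, c v ≠ none
    · have : ∀ v, ∃ a, c v = some a := fun v => Option.ne_none_iff_exists'.1 (hall v)
      choose f hf using this
      exact ⟨f, fun v => hc v _ (hf v), fun v w hadj he => hp v w (f v) hadj (hf v) (he ▸ hf w)⟩
    · push Not at hall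
      obtain ⟨v, hv⟩ := hall
      obtain ⟨a, hla⟩ := ha v hv
      obtain ⟨s1, s2⟩ := step c v a hla hc hp
      exact ih v a hla s1 s2

end General

/-! ## The graph and the checkers -/

/-- packed adjacency matrix -/
def NB : ℕ := 1206824813123726370615761609008017282

/-- The 11-vertex graph. -/
def G11 : SimpleGraph (Fin 11) where
  Adj v w := NB.testBit (11 * v + w) = true
  symm := ⟨by decide⟩
  loopless := ⟨by decide⟩

noncomputable section

def nb (v : ℕ) : ℕ := Nat.land (Nat.shiftRight NB (Nat.mul 11 v)) 2047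
def freeB (S v a : ℕ) : Bool := Nat.beq (Nat.land S (Nat.shiftLeft (nb v) (Nat.mul 11 a))) 0
def emptyB (S a : ℕ) : Bool := Nat.beq (Nat.land S (Nat.shiftLeft 2047 (Nat.mul 11 a))) 0
def uncB (D v : ℕ) : Bool := Nat.beq (Nat.land D (Nat.shiftLeft 1 v)) 0
def setS (S v a : ℕ) : ℕ := Nat.lor S (Nat.shiftLeft 1 (Nat.add (Nat.mul 11 a) v))
def setD (D v : ℕ) : ℕ := Nat.lor D (Nat.shiftLeft 1 v)

def allR (p : ℕ → Bool) (l : List ℕ) : Bool :=
  List.rec (motive := fun _ => Bool) true (fun a _ ih => cond (p a) ih false) l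
def anyR (p : ℕ → Bool) (l : List ℕ) : Bool :=
  List.rec (motive := fun _ => Bool) false (fun a _ ih => cond (p a) true ih) l
def cntR (p : ℕ → Bool) (l : List ℕ) : ℕ :=
  List.rec (motive := fun _ => ℕ) 0 (fun a _ ih => cond (p a) (Nat.succ ih) ih) l

def vs : List ℕ := [0, 1, 2, 3, 4, 5, 6, 7, 8, 9, 10]

def liveB (cs : List ℕ) (D S : ℕ) : Bool :=
  allR (fun v => cond (uncB D v) (anyR (fun a => freeB S v a) cs) true) vs

def safeB (cs : List ℕ) (D S : ℕ) : Bool :=
  allR (fun v => cond (uncB D v)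
    (Nat.ble (Nat.succ (cntR (fun w => cond (uncB (nb v) w) false (uncB D w)) vs))
      (cntR (fun a => freeB S v a) cs)) true) vs

/-- relation between packed positions and colourings -/
def R (cs : List ℕ) (D S : ℕ) (c : Fin 11 → Option ℕ) : Prop :=
  (∀ v : Fin 11, c v = none ↔ D.testBit v = false) ∧
  (∀ (v : Fin 11) (a : ℕ), c v = some a ↔ (a ∈ cs ∧ S.testBit (11 * a + v) = true))

theorem land_shift_eq_zero (S M s : ℕ) :
    Nat.beq (Nat.land S (Nat.shiftLeft M s)) 0 = true ↔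
      ∀ j, M.testBit j = true → S.testBit (s + j) = false := by
  rw [Nat.beq_eq]
  change (S &&& (M <<< s)) = 0 ↔ _
  constructor
  · intro h j hj
    have h1 := congrArg (fun x => Nat.testBit x (s + j)) h
    simp only [Nat.testBit_and, Nat.testBit_shiftLeft, Nat.zero_testBit] at h1
    simpa [hj] using h1
  · intro h
    apply Nat.eq_of_testBit_eq
    intro i
    simp only [Nat.testBit_and, Nat.testBit_shiftLeft, Nat.zero_testBit]
    by_cases hi : i ≥ s
    · obtain ⟨j, rfl⟩ := Nat.exists_eq_add_of_le hi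
      cases hM : M.testBit j with
      | false => simp [hM]
      | true => simp [h j hM]
    · simp [hi]

theorem uncB_iff (D v : ℕ) : uncB D v = true ↔ D.testBit v = false := by
  unfold uncB
  rw [land_shift_eq_zero]
  constructor
  · intro h; simpa using h 0 (by decide)
  · intro h j hj
    have : j = 0 := by
      by_contra hne
      have h1 : (1 : ℕ).testBit j = false := by
        rw [Nat.testBit_lt_two_pow]
        exact Nat.one_lt_two_pow hne
      rw [h1] at hj; exact absurd hj (by simp)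
    subst this; simpa using h

theorem testBit_2047 (j : ℕ) : (2047 : ℕ).testBit j = true ↔ j < 11 := by
  have h : (2047 : ℕ) = 2 ^ 11 - 1 := by norm_num
  rw [h, Nat.testBit_two_pow_sub_one]; simp

theorem nb_testBit (v w : ℕ) : (nb v).testBit w = true ↔ (w < 11 ∧ NB.testBit (11 * v + w) = true) := by
  unfold nb
  change ((NB >>> (11 * v)) &&& 2047).testBit w = true ↔ _
  rw [Nat.testBit_and, Nat.testBit_shiftRight]
  simp only [Bool.and_eq_true, testBit_2047]
  tauto

theorem freeB_iff {cs : List ℕ} {D S : ℕ} {c : Fin 11 → Option ℕ} (h : R cs D S c) (v : Fin 11) {a : ℕ}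
    (ha : a ∈ cs) : freeB S v a = true ↔ ∀ w, G11.Adj v w → c w ≠ some a := by
  unfold freeB
  rw [land_shift_eq_zero]
  constructor
  · intro h1 w hw hc
    have h2 := h1 w ((nb_testBit v w).2 ⟨w.2, hw⟩)
    have h3 := ((h.2 w a).1 hc).2
    have h4 : Nat.mul 11 a + (w : ℕ) = 11 * a + w := rfl
    rw [h4, h3] at h2
    exact absurd h2 (by simp)
  · intro h1 j hj
    obtain ⟨hj1, hj2⟩ := (nb_testBit v j).1 hj
    have h2 := h1 ⟨j, hj1⟩ hj2
    have h4 : Nat.mul 11 a + j = 11 * a + j := rfl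
    rw [h4]
    by_contra hne
    rw [Bool.not_eq_false] at hne
    exact h2 ((h.2 ⟨j, hj1⟩ a).2 ⟨ha, hne⟩)

theorem emptyB_iff {cs : List ℕ} {D S : ℕ} {c : Fin 11 → Option ℕ} (h : R cs D S c) {a : ℕ}
    (he : emptyB S a = true) : ∀ w, c w ≠ some a := by
  unfold emptyB at he
  rw [land_shift_eq_zero] at he
  intro w hc
  have h2 := he w ((testBit_2047 w).2 w.2)
  have h3 := ((h.2 w a).1 hc).2
  have h4 : Nat.mul 11 a + (w : ℕ) = 11 * a + w := rfl
  rw [h4, h3] at h2
  exact absurd h2 (by simp)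

theorem R_update {cs : List ℕ} {D S : ℕ} {c : Fin 11 → Option ℕ} (h : R cs D S c) (v : Fin 11) {a : ℕ}
    (ha : a ∈ cs) (hv : c v = none) : R cs (setD D v) (setS S v a) (update c v (some a)) := by
  have hD : ∀ i, (setD D v).testBit i = (D.testBit i || decide ((v : ℕ) = i)) := by
    intro i
    unfold setD
    change (D ||| (1 <<< (v : ℕ))).testBit i = _
    rw [Nat.testBit_or, Nat.one_shiftLeft, Nat.testBit_two_pow]
  have hS : ∀ i, (setS S v a).testBit i = (S.testBit i || decide (11 * a + (v : ℕ) = i)) := by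
    intro i
    unfold setS
    change (S ||| (1 <<< (11 * a + (v : ℕ)))).testBit i = _
    rw [Nat.testBit_or, Nat.one_shiftLeft, Nat.testBit_two_pow]
  constructor
  · intro u
    rw [hD]
    by_cases huv : u = v
    · subst huv; simp
    · rw [update_of_ne huv, h.1 u]
      have : (v : ℕ) ≠ u := fun h => huv (Fin.ext h.symm)
      simp [this]
  · intro u b
    rw [hS]
    by_cases huv : u = v
    · subst huv
      rw [update_self]
      have hno : ∀ b, b ∈ cs → S.testBit (11 * b + u) = false := by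
        intro b hb
        by_contra hne
        rw [Bool.not_eq_false] at hne
        have := (h.2 u b).2 ⟨hb, hne⟩
        rw [hv] at this
        exact absurd this (by simp)
      constructor
      · intro hab
        have := Option.some.inj hab
        subst this
        exact ⟨ha, by simp⟩
      · rintro ⟨hb, hb2⟩
        rw [hno b hb] at hb2
        simp only [Bool.false_or, decide_eq_true_eq] at hb2
        have : a = b := by omega
        rw [this]
    · rw [update_of_ne huv, h.2 u b]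
      have hvu : (v : ℕ) ≠ u := fun h => huv (Fin.ext h.symm)
      have : ¬ (11 * a + (v : ℕ) = 11 * b + u) := by
        have := v.2
        have := u.2
        omega
      simp [this]

theorem allR_iff (p : ℕ → Bool) (l : List ℕ) : allR p l = true ↔ ∀ a ∈ l, p a = true := by
  induction l with
  | nil => simp [allR]
  | cons a l ih =>
    have : allR p (a :: l) = cond (p a) (allR p l) false := rfl
    rw [this]
    cases hp : p a with
    | false => simp [hp]
    | true => simp [hp, ih]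

theorem anyR_iff (p : ℕ → Bool) (l : List ℕ) : anyR p l = true ↔ ∃ a ∈ l, p a = true := by
  induction l with
  | nil => simp [anyR]
  | cons a l ih =>
    have : anyR p (a :: l) = cond (p a) true (anyR p l) := rfl
    rw [this]
    cases hp : p a with
    | false => simp [hp, ih]
    | true => simp [hp]

theorem cntR_eq (p : ℕ → Bool) (l : List ℕ) : cntR p l = (l.filter p).length := by
  induction l with
  | nil => rfl
  | cons a l ih =>
    have : cntR p (a :: l) = cond (p a) (Nat.succ (cntR p l)) (cntR p l) := rfl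
    rw [this, List.filter_cons]
    cases hp : p a with
    | false => simp [ih]
    | true => simp [ih]

theorem mem_vs (v : ℕ) : v ∈ vs ↔ v < 11 := by
  simp only [vs, List.mem_cons, List.not_mem_nil, or_false]
  omega

variable {k : ℕ}

/-- `cs` is the list of the colours -/
def IsColors (k : ℕ) (cs : List ℕ) : Prop := cs = List.range k

theorem mem_cs {cs : List ℕ} (hcs : IsColors k cs) {a : ℕ} : a ∈ cs ↔ a < k := by
  rw [hcs]; simp

theorem legal_iff {cs : List ℕ} (hcs : IsColors k cs) {D S : ℕ} {c : Fin 11 → Option ℕ} (h : R cs D S c)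
    (v : Fin 11) (a : ℕ) :
    Legal G11 k c v a ↔ (uncB D v = true ∧ a ∈ cs ∧ freeB S v a = true) := by
  unfold Legal
  rw [h.1 v, uncB_iff, ← mem_cs hcs]
  constructor
  · rintro ⟨h1, h2, h3⟩; exact ⟨h1, h2, (freeB_iff h v h2).2 h3⟩
  · rintro ⟨h1, h2, h3⟩; exact ⟨h1, h2, (freeB_iff h v h2).1 h3⟩

theorem liveB_sound {cs : List ℕ} (hcs : IsColors k cs) {D S : ℕ} {c : Fin 11 → Option ℕ} (h : R cs D S c)
    (hl : liveB cs D S = true) : Alive G11 k c := by
  unfold liveB at hl
  rw [allR_iff] at hl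
  intro u hu
  have h1 := hl u ((mem_vs u).2 u.2)
  have h2 : uncB D u = true := (uncB_iff D u).2 ((h.1 u).1 hu)
  rw [h2] at h1
  simp only [cond_true] at h1
  rw [anyR_iff] at h1
  obtain ⟨a, ha, hf⟩ := h1
  exact ⟨a, (legal_iff hcs h u a).2 ⟨h2, ha, hf⟩⟩

theorem liveB_complete {cs : List ℕ} (hcs : IsColors k cs) {D S : ℕ} {c : Fin 11 → Option ℕ}
    (h : R cs D S c) (hl : liveB cs D S = false) : ¬ Alive G11 k c := by
  intro hal
  have : liveB cs D S = true := by
    unfold liveB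
    rw [allR_iff]
    intro v hv
    rw [mem_vs] at hv
    cases hu : uncB D v with
    | false => rfl
    | true =>
      simp only [cond_true]
      rw [anyR_iff]
      have h2 : c ⟨v, hv⟩ = none := (h.1 ⟨v, hv⟩).2 ((uncB_iff D v).1 hu)
      obtain ⟨a, ha⟩ := hal ⟨v, hv⟩ h2
      have h3 := (legal_iff hcs h ⟨v, hv⟩ a).1 ha
      exact ⟨a, h3.2.1, h3.2.2⟩
  rw [this] at hl
  exact absurd hl (by simp)

theorem safeB_sound {cs : List ℕ} (hcs : IsColors k cs) {D S : ℕ} {c : Fin 11 → Option ℕ} (h : R cs D S c)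
    (hl : safeB cs D S = true) : Safe G11 k c := by
  classical
  unfold safeB at hl
  rw [allR_iff] at hl
  intro u hu
  have h1 := hl u ((mem_vs u).2 u.2)
  have h2 : uncB D u = true := (uncB_iff D u).2 ((h.1 u).1 hu)
  rw [h2] at h1
  simp only [cond_true] at h1
  rw [Nat.ble_eq, cntR_eq, cntR_eq] at h1
  have e1 : ((Finset.univ.filter (fun w => G11.Adj u w ∧ c w = none))).card ≤
      (vs.filter (fun w => cond (uncB (nb u) w) false (uncB D w))).length := by
    rw [← Finset.card_map Fin.valEmbedding]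
    have hn : (vs.filter (fun w => cond (uncB (nb u) w) false (uncB D w))).Nodup :=
      List.Nodup.filter _ (by decide)
    rw [← List.toFinset_card_of_nodup hn]
    apply Finset.card_le_card
    intro x hx
    rw [Finset.mem_map] at hx
    obtain ⟨w, hw, rfl⟩ := hx
    rw [Finset.mem_filter] at hw
    rw [List.mem_toFinset, List.mem_filter]
    refine ⟨(mem_vs _).2 w.2, ?_⟩
    have h3 : uncB (nb u) w = false := by
      rw [← Bool.not_eq_true, uncB_iff]
      rw [Bool.not_eq_false]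
      exact (nb_testBit u w).2 ⟨w.2, hw.2.1⟩
    have h4 : uncB D w = true := (uncB_iff D w).2 ((h.1 w).1 hw.2.2)
    change cond (uncB (nb u) w) false (uncB D w) = true
    rw [h3, h4]; rfl
  have e2 : (cs.filter (fun a => freeB S u a)).length ≤
      ((Finset.range k).filter (fun a => ∀ w, G11.Adj u w → c w ≠ some a)).card := by
    have hn : (cs.filter (fun a => freeB S u a)).Nodup := by
      apply List.Nodup.filter
      rw [hcs]; exact List.nodup_range
    rw [← List.toFinset_card_of_nodup hn]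
    apply Finset.card_le_card
    intro x hx
    rw [List.mem_toFinset, List.mem_filter] at hx
    rw [Finset.mem_filter, Finset.mem_range]
    exact ⟨(mem_cs hcs).1 hx.1, (freeB_iff h u hx.1).1 hx.2⟩
  have h5 : (vs.filter (fun w => cond (uncB (nb u) w) false (uncB D w))).length <
    (cs.filter (fun a => freeB S u a)).length := h1
  refine lt_of_le_of_lt (le_trans (le_of_eq ?_) e1) (lt_of_lt_of_le h5 (le_trans e2 (le_of_eq ?_))) <;> congr

/-- forces the evaluation of the certificate -/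
def force (N : ℕ) (f : ℕ → Option ℕ) : Option ℕ :=
  Nat.rec (motive := fun _ => Option ℕ) (f 0) (fun m _ => f (Nat.succ m)) N

theorem force_eq (N : ℕ) (f : ℕ → Option ℕ) : force N f = f N := by
  cases N <;> rfl

def bindR (o : Option ℕ) (f : ℕ → Option ℕ) : Option ℕ :=
  Option.rec (motive := fun _ => Option ℕ) none (fun x => f x) o

theorem bindR_some {o : Option ℕ} {f : ℕ → Option ℕ} {y : ℕ} (h : bindR o f = some y) :
    ∃ x, o = some x ∧ f x = some y := by
  cases o with
  | none => exact absurd h (by simp [bindR])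
  | some x => exact ⟨x, rfl, h⟩

/-! ### Checker 1: Alice wins the colouring game -/

def innerB (F : ℕ → ℕ → ℕ → Option ℕ) (D S v : ℕ) (l : List ℕ) : Bool → ℕ → Option ℕ :=
  List.rec (motive := fun _ => Bool → ℕ → Option ℕ) (fun _ N => some N)
    (fun a _ ih flag N => cond (freeB S v a)
      (cond (emptyB S a)
        (cond flag (ih true N) (bindR (F (setD D v) (setS S v a) N) (fun N' => ih true N')))
        (bindR (F (setD D v) (setS S v a) N) (fun N' => ih flag N')))
      (ih flag N)) l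

def outerB (F : ℕ → ℕ → ℕ → Option ℕ) (cs : List ℕ) (D S : ℕ) (l : List ℕ) : ℕ → Option ℕ :=
  List.rec (motive := fun _ => ℕ → Option ℕ) (fun N => some N)
    (fun v _ ih N => cond (uncB D v) (bindR (innerB F D S v cs false N) (fun N' => ih N')) (ih N)) l

def chkB (F : ℕ → ℕ → ℕ → Option ℕ) (cs : List ℕ) (D S N : ℕ) : Option ℕ :=
  cond (liveB cs D S) (outerB F cs D S vs N) none

def memB (a : ℕ) (cs : List ℕ) : Bool := anyR (fun b => Nat.beq a b) cs

theorem memB_iff (a : ℕ) (cs : List ℕ) : memB a cs = true ↔ a ∈ cs := by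
  unfold memB
  rw [anyR_iff]
  constructor
  · rintro ⟨b, hb, he⟩
    rw [Nat.beq_eq] at he
    rwa [he]
  · intro h; exact ⟨a, h, by rw [Nat.beq_eq]⟩

def moveA (F : ℕ → ℕ → ℕ → Option ℕ) (cs : List ℕ) (D S v a : ℕ) (fl : Bool) (N : ℕ) : Option ℕ :=
  cond (memB v vs) (cond (memB a cs) (cond (uncB D v) (cond (freeB S v a)
    (cond fl (cond (safeB cs (setD D v) (setS S v a)) (some N) none)
      (chkB F cs (setD D v) (setS S v a) N)) none) none) none) none

def chkA (cs : List ℕ) (fuel : ℕ) : ℕ → ℕ → ℕ → Option ℕ :=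
  Nat.rec (motive := fun _ => ℕ → ℕ → ℕ → Option ℕ) (fun _ _ _ => none)
    (fun _ F D S N => force N (fun N =>
      cond (Nat.beq (Nat.mod N 256) 255) (cond (safeB cs D S) (some (Nat.div N 256)) none)
        (moveA F cs D S (Nat.div (Nat.mod N 128) 8) (Nat.mod N 8)
          (Nat.ble 128 (Nat.mod N 256)) (Nat.div N 256)))) fuel

theorem innerB_sound {cs : List ℕ} (hcs : IsColors k cs) {F : ℕ → ℕ → ℕ → Option ℕ} {D S : ℕ}
    {c : Fin 11 → Option ℕ} (hR : R cs D S c) (v : Fin 11) (hv : uncB D v = true)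
    (hF : ∀ D S N N' c, R cs D S c → F D S N = some N' → AliceWins G11 k (Legal G11 k) true c)
    (l : List ℕ) (hl : ∀ a ∈ l, a ∈ cs) : ∀ (flag : Bool) (N N' : ℕ),
    (flag = true → ∃ a', a' ∈ cs ∧ emptyB S a' = true ∧
      AliceWins G11 k (Legal G11 k) true (update c v (some a'))) →
    innerB F D S v l flag N = some N' →
    ∀ a ∈ l, Legal G11 k c v a → AliceWins G11 k (Legal G11 k) true (update c v (some a)) := by
  have hcv : c v = none := (hR.1 v).2 ((uncB_iff D v).1 hv)
  induction l with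
  | nil => intro flag N N' _ _ a ha; exact absurd ha (by simp)
  | cons x l ih =>
    intro flag N N' hfl hin a ha hleg
    have hxcs : x ∈ cs := hl x (by simp)
    have hl' : ∀ a ∈ l, a ∈ cs := fun a ha => hl a (by simp [ha])
    have hin' : cond (freeB S v x)
      (cond (emptyB S x)
        (cond flag (innerB F D S v l true N)
          (bindR (F (setD D v) (setS S v x) N) (fun N' => innerB F D S v l true N')))
        (bindR (F (setD D v) (setS S v x) N) (fun N' => innerB F D S v l flag N')))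
      (innerB F D S v l flag N) = some N' := hin
    cases hfree : freeB S v x with
    | false =>
      rw [hfree] at hin'
      simp only [cond_false] at hin'
      rcases List.mem_cons.1 ha with rfl | ha'
      · have := ((legal_iff hcs hR v a).1 hleg).2.2
        rw [hfree] at this
        exact absurd this (by simp)
      · exact ih hl' flag N N' hfl hin' a ha' hleg
    | true =>
      rw [hfree] at hin'
      simp only [cond_true] at hin'
      cases hemp : emptyB S x with
      | false =>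
        rw [hemp] at hin'
        simp only [cond_false] at hin'
        obtain ⟨y, hy, hy'⟩ := bindR_some hin'
        rcases List.mem_cons.1 ha with rfl | ha'
        · exact hF _ _ _ _ _ (R_update hR v hxcs hcv) hy
        · exact ih hl' flag y N' hfl hy' a ha' hleg
      | true =>
        rw [hemp] at hin'
        simp only [cond_true] at hin'
        cases hflag : flag with
        | false =>
          rw [hflag] at hin'
          simp only [cond_false] at hin'
          obtain ⟨y, hy, hy'⟩ := bindR_some hin'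
          have hx := hF _ _ _ _ _ (R_update hR v hxcs hcv) hy
          rcases List.mem_cons.1 ha with rfl | ha'
          · exact hx
          · exact ih hl' true y N' (fun _ => ⟨x, hxcs, hemp, hx⟩) hy' a ha' hleg
        | true =>
          rw [hflag] at hin'
          simp only [cond_true] at hin'
          obtain ⟨a', ha1, ha2, ha3⟩ := hfl hflag
          rcases List.mem_cons.1 ha with rfl | ha'
          · exact swap_unused ((mem_cs hcs).1 ha1) ((mem_cs hcs).1 hxcs) (emptyB_iff hR ha2)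
              (emptyB_iff hR hemp) ha3
          · exact ih hl' true N N' (fun _ => ⟨a', ha1, ha2, ha3⟩) hin' a ha' hleg

theorem outerB_sound {cs : List ℕ} (hcs : IsColors k cs) {F : ℕ → ℕ → ℕ → Option ℕ} {D S : ℕ}
    {c : Fin 11 → Option ℕ} (hR : R cs D S c)
    (hF : ∀ D S N N' c, R cs D S c → F D S N = some N' → AliceWins G11 k (Legal G11 k) true c)
    (l : List ℕ) : ∀ (N N' : ℕ),
    outerB F cs D S l N = some N' →
    ∀ v : Fin 11, (v : ℕ) ∈ l → ∀ a, Legal G11 k c v a →
      AliceWins G11 k (Legal G11 k) true (update c v (some a)) := by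
  induction l with
  | nil => intro N N' _ v hv; exact absurd hv (by simp)
  | cons x l ih =>
    intro N N' hin v hv a hleg
    have hin' : cond (uncB D x) (bindR (innerB F D S x cs false N)
      (fun N' => outerB F cs D S l N')) (outerB F cs D S l N) = some N' := hin
    have hl1 := (legal_iff hcs hR v a).1 hleg
    cases hunc : uncB D x with
    | false =>
      rw [hunc] at hin'
      simp only [cond_false] at hin'
      rcases List.mem_cons.1 hv with hv' | hv'
      · rw [← hv', hl1.1] at hunc; exact absurd hunc (by simp)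
      · exact ih N N' hin' v hv' a hleg
    | true =>
      rw [hunc] at hin'
      simp only [cond_true] at hin'
      obtain ⟨y, hy, hy'⟩ := bindR_some hin'
      rcases List.mem_cons.1 hv with hv' | hv'
      · rw [← hv'] at hy
        exact innerB_sound hcs hR v hl1.1 hF cs (fun _ h => h) false N y (by simp) hy a hl1.2.1 hleg
      · exact ih y N' hy' v hv' a hleg

theorem chkB_sound {cs : List ℕ} (hcs : IsColors k cs) {F : ℕ → ℕ → ℕ → Option ℕ} {D S N N' : ℕ}
    {c : Fin 11 → Option ℕ} (hR : R cs D S c)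
    (hF : ∀ D S N N' c, R cs D S c → F D S N = some N' → AliceWins G11 k (Legal G11 k) true c)
    (h : chkB F cs D S N = some N') : AliceWins G11 k (Legal G11 k) false c := by
  unfold chkB at h
  cases hl : liveB cs D S with
  | false => rw [hl] at h; exact absurd h (by simp)
  | true =>
    rw [hl] at h
    simp only [cond_true] at h
    exact AliceWins.bob c (liveB_sound hcs hR hl) (fun v a hleg =>
      outerB_sound hcs hR hF vs N N' h v ((mem_vs v).2 v.2) a hleg)

theorem chkA_sound {cs : List ℕ} (hcs : IsColors k cs) (fuel : ℕ) : ∀ D S N N' c, R cs D S c →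
    chkA cs fuel D S N = some N' → AliceWins G11 k (Legal G11 k) true c := by
  have sw : ∀ (t : Bool) (c : Fin 11 → Option ℕ), Safe G11 k c →
      AliceWins G11 k (Legal G11 k) t c := fun t c hs =>
    safe_wins (fun _ _ _ h => h.1) (fun _ _ _ h => h) _ t c le_rfl hs
  induction fuel with
  | zero => intro D S N N' c _ h; exact absurd h (by simp [chkA])
  | succ f ih =>
    intro D S N N' c hR h
    have h' : force N (fun N =>
      cond (Nat.beq (Nat.mod N 256) 255) (cond (safeB cs D S) (some (Nat.div N 256)) none)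
        (moveA (chkA cs f) cs D S (Nat.div (Nat.mod N 128) 8) (Nat.mod N 8)
          (Nat.ble 128 (Nat.mod N 256)) (Nat.div N 256))) = some N' := h
    rw [force_eq] at h'
    cases h1 : Nat.beq (Nat.mod N 256) 255 with
    | true =>
      rw [h1] at h'
      simp only [cond_true] at h'
      cases h2 : safeB cs D S with
      | false => rw [h2] at h'; exact absurd h' (by simp)
      | true => exact sw true c (safeB_sound hcs hR h2)
    | false =>
      rw [h1] at h'
      simp only [cond_false] at h'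
      generalize Nat.div (Nat.mod N 128) 8 = v at h'
      generalize Nat.mod N 8 = a at h'
      generalize Nat.ble 128 (Nat.mod N 256) = fl at h'
      unfold moveA at h'
      cases m1 : memB v vs with
      | false => rw [m1] at h'; exact absurd h' (by simp)
      | true =>
      cases m2 : memB a cs with
      | false => rw [m1, m2] at h'; exact absurd h' (by simp)
      | true =>
      cases m3 : uncB D v with
      | false => rw [m1, m2, m3] at h'; exact absurd h' (by simp)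
      | true =>
      cases m4 : freeB S v a with
      | false => rw [m1, m2, m3, m4] at h'; exact absurd h' (by simp)
      | true =>
      rw [m1, m2, m3, m4] at h'
      simp only [cond_true] at h'
      have hv : v < 11 := (mem_vs v).1 ((memB_iff v vs).1 m1)
      have ha : a ∈ cs := (memB_iff a cs).1 m2
      have hleg : Legal G11 k c ⟨v, hv⟩ a := (legal_iff hcs hR ⟨v, hv⟩ a).2 ⟨m3, ha, m4⟩
      have hR' : R cs (setD D v) (setS S v a) (update c ⟨v, hv⟩ (some a)) :=
        R_update hR ⟨v, hv⟩ ha hleg.1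
      have hB : AliceWins G11 k (Legal G11 k) false (update c ⟨v, hv⟩ (some a)) := by
        cases hfl : fl with
        | true =>
          rw [hfl] at h'
          simp only [cond_true] at h'
          cases h2 : safeB cs (setD D v) (setS S v a) with
          | false => rw [h2] at h'; exact absurd h' (by simp)
          | true => exact sw false _ (safeB_sound hcs hR' h2)
        | false =>
          rw [hfl] at h'
          simp only [cond_false] at h'
          exact chkB_sound hcs hR' ih h'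
      exact AliceWins.alice c ⟨v, hv⟩ a (alive_of_update hleg hB.isAlive) hleg hB

theorem R_zero (cs : List ℕ) : R cs 0 0 (fun _ => none) := by
  constructor
  · intro v; simp
  · intro v a; simp

def cert1 : ℕ := 0xff9a9ba2a3ac3ca4bb83a31aabbb9a9affacacac3c9babbbc300a2a2ffacacac3ca3abbbc300bcffbcbcbcbc2ca3abbbc31a30a4bb83a31aaaba9babbbc302a3abbbc302a3abbbc31a30ff9a9ba2a3ac3ca4bb83a31aabbb9a9affacacac3c9babbbcb00a2a2ffacacac3ca3abbbcb00bcffbcbcbcbc2ca3abbbcb1a30a4bb83a31aaaba9babbbcb02a3abbbcb02a3abbbcb1a30aabcffbcbcbcbc2ca3abbbc31abcffbcbcbcbc2ca3abbbcb1aabbbbcbcbcbcffbc2c9babbbcb40bcbcbcbcffbc2ca3abbbcb4002a3abbbc31aa3abbbcb1aaaba9babbbcb42a3abbbcb4200ba9bffbcbcbcbc2c9babbbc3309bffbcbcbcbc2c9babbbcb30abacacacacffac3c9babbbcb429babbbcb42bbbcbcbcbcffbcbcbc2c00a3ffbcbcbcbc2ca3abbbc330a3ffbcbcbcbc2ca3abbbcb30abacacacacffac3ca3abbbcb42a3abbbcb42bbbcbcbcbcffbcbcbc2c00bcffbcbcbcbc2ca3abbbc31abcffbcbcbcbc2ca3abbbcb1aabbbbcbcbcbcffbc2c9babbbcb40bcbcbcbcffbc2ca3a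bbbcb4032a3abbbc31aa3abbbcb1aaaba9babbbcb42a3abbbcb423009a4bb83a31aaaba9babbbc302a3abbbc302a3abbbc31a09a4bb83a31aaaba9babbbcb02a3abbbcb02a3abbbcb1a098a8a8282838b298a8a8282838b399babbbc30a9babbbcb0aaaba8babbbcb429babbbcb4201a3abbbc30aa3abbbcb0aaaba8babbbcb42a3abbbcb4201a4bb83a31aaaba9babbbcb02a3abbbcb02a3abbbcb1a41a3abbbc30aa3abbbcb0aaaba8babbbcb42a3abbbcb421930ff9a9ba2a3ac3ca4bb83a31aabbb9a9affacacac3c9babbbc300a2a2ffacacac3ca3abbbc300bcffbcbcbcbc2ca3abbbc31a30a4bb83a31aaaba9babbbc302a3abbbc302a3abbbc31a30ff9a9ba2a3ac3ca4bb83a31aabbb9a9affacacac3c9babbbd300a2a2ffacacac3ca3abbbd300bcffbcbcbcbc2ca3abbbd31a30a4bb83a31aaaba9babbbd302a3abbbd302a3abbbd31a30aabcffbcbcbcbc2ca3abbbc31abcffbcbcbcbc2ca3abbbd31aabbbbcbcbcbcffbc2c9babbbd340bcbcbcbcffbc2ca3abbbd34002a3abbbc31aa3abbbd31aaaba9babbbd342a3abbbd34200ba9bffbcbcbcbc2c9babbbc3309bffbcbcbcbc2c9babbbd330abacacacacffac3c9babbbd3429babbbd342bbbcbcbcbcffbcbcbc2c00a3ffbcbcbcbc2ca3abbbc330a3ffbcbcbcbc2ca3abbbd330abacac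acacffac3ca3abbbd342a3abbbd342bbbcbcbcbcffbcbcbc2c00bcffbcbcbcbc2ca3abbbc31abcffbcbcbcbc2ca3abbbd31aabbbbcbcbcbcffbc2c9babbbd340bcbcbcbcffbc2ca3abbbd34032a3abbbc31aa3abbbd31aaaba9babbbd342a3abbbd3423009a4bb83a31aaaba9babbbc302a3abbbc302a3abbbc31a09a4bb83a31aaaba9babbbd302a3abbbd302a3abbbd31a098a8a8282838b298a8a8282838b399babbbc30a9babbbd30aaaba8babbbd3429babbbd34201a3abbbc30aa3abbbd30aaaba8babbbd342a3abbbd34201a4bb83a31aaaba9babbbd302a3abbbd302a3abbbd31a41a3abbbc30aa3abbbd30aaaba8babbbd342a3abbbd3421930ff9a9ba2a3ac3ca4bb83a31aabbb9a9affacacac3c9babbbcb00a2a2ffacacac3ca3abbbcb00bcffbcbcbcbc2ca3abbbcb1a30a4bb83a31aaaba9babbbcb02a3abbbcb02a3abbbcb1a30ff9a9ba2a3ac3ca4bb83a31aabbb9a9affacacac3c9babbbd300a2a2ffacacac3ca3abbbd300bcffbcbcbcbc2ca3abbbd31a30a4bb83a31aaaba9babbbd302a3abbbd302a3abbbd31a30aabcffbcbcbcbc2ca3abbbcb1abcffbcbcbcbc2ca3abbbd31aabbbbcbcbcbcffbc2c9babbbd348bcbcbcbcffbc2ca3abbbd34802a3abbbcb1aa3abbbd31aaaba9babbbd34aa3abbbd34a00ba9bffbcbcbcbc2c9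babbbcb309bffbcbcbcbc2c9babbbd330abacacacacffac3c9babbbd34a9babbbd34abbbcbcbcbcffbcbcbc2c00a3ffbcbcbcbc2ca3abbbcb30a3ffbcbcbcbc2ca3abbbd330abacacacacffac3ca3abbbd34aa3abbbd34abbbcbcbcbcffbcbcbc2c00bcffbcbcbcbc2ca3abbbcb1abcffbcbcbcbc2ca3abbbd31aabbbbcbcbcbcffbc2c9babbbd348bcbcbcbcffbc2ca3abbbd34832a3abbbcb1aa3abbbd31aaaba9babbbd34aa3abbbd34a3009a4bb83a31aaaba9babbbcb02a3abbbcb02a3abbbcb1a09a4bb83a31aaaba9babbbd302a3abbbd302a3abbbd31a098a8a8282838b298a8a8282838b399babbbcb0a9babbbd30aaaba8babbbd34a9babbbd34a01a3abbbcb0aa3abbbd30aaaba8babbbd34aa3abbbd34a01a4bb83a31aaaba9babbbd302a3abbbd302a3abbbd31a49a3abbbcb0aa3abbbd30aaaba8babbbd34aa3abbbd34a19308a8a8a8282838b308a8a8a8282838b308a8a8a8282838b308b8b8b8b8b8b8cff8cffff00808b8b8b8b8b8b8cffff8cff008b8b8b8b8b8b8cffff8cff00808b8a29bcffbcbcbcbc2ca3abbbc319bcffbcbcbcbc2ca3abbbcb19abbbbcbcbcbcffbc2c9babbbcb40bcbcbcbcffbc2ca3abbbcb400aa3abbbc30aa3abbbcb0aaaba8babbbcb42a3abbbcb4219bcffbcbcbcbc2ca3abbbc319bcffbcbcbcbc2ca3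abbbd319abbbbcbcbcbcffbc2c9babbbd340bcbcbcbcffbc2ca3abbbd3400aa3abbbc30aa3abbbd30aaaba8babbbd342a3abbbd34219bcffbcbcbcbc2ca3abbbcb19bcffbcbcbcbc2ca3abbbd319abbbbcbcbcbcffbc2c9babbbd348bcbcbcbcffbc2ca3abbbd3480aa3abbbcb0aa3abbbd30aaaba8babbbd34aa3abbbd34a198b8b8b8b8b8b8cff8cffff2a8b8b8b8b8b8b8cff8cffff3aacacacacffac3c8babbbcb408babbbcb42acacacacffac3c8babbbd3408babbbd342acacacacffac3c8babbbd3488babbbd34aabbbbcbcbcbcbcbcbcbcbcff2c199babbbcb0a9babbbd30aaaba8babbbd34a9babbbd34a40acacacacffac3c8babbbcb408babbbcb42acacacacffac3c8babbbd3408babbbd342acacacacffac3c8babbbd3488babbbd34aabbbbcbcbcbcbcbcbcbcbcff2c21a3abbbcb0aa3abbbd30aaaba8babbbd34aa3abbbd34a40bcffbcbcbcbc2ca3abbbcb19bcffbcbcbcbc2ca3abbbd319abbbbcbcbcbcffbc2c9babbbd348bcbcbcbcffbc2ca3abbbd3484201a3abbbc31aa3abbbcb1aaaba9babbbcb42a3abbbcb4209a3abbbc31aa3abbbd31aaaba9babbbd342a3abbbd34209a3abbbcb1aa3abbbd31aaaba9babbbd34aa3abbbd34a09a9b99babbbcb0a9babbbd30aaaba8babbbd34a9babbbd34a41a3abbbcb0aa3abbbd30aaab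a8babbbd34aa3abbbd34a41a3abbbcb1aa3abbbd31aaaba9babbbd34aa3abbbd34a41008a8a8a8282838b308a8a8a8282838b308a8a8a8282838b308b8b8b8b8b8b8cff8cffff00808b8b8b8b8b8b8cffff8cff008b8b8b8b8b8b8cffff8cff00808b8a399affacacacac3c9babbbc30a9affacacacac3c9babbbcb0aabbbacacacacffac3c8babbbcb41bcbcbcbcffbc2c9babbbcb41309babbbc30a9babbbcb0aaaba8babbbcb429babbbcb42309affacacacac3c9babbbc30a9affacacacac3c9babbbd30aabbbacacacacffac3c8babbbd341bcbcbcbcffbc2c9babbbd341309babbbc30a9babbbd30aaaba8babbbd3429babbbd342309affacacacac3c9babbbcb0a9affacacacac3c9babbbd30aabbbacacacacffac3c8babbbd349bcbcbcbcffbc2c9babbbd349309babbbcb0a9babbbd30aaaba8babbbd34a9babbbd34a308b8b8b8b8b8b8cffff8cff2aacacacacffac3c8babbbcb418babbbcb42acacacacffac3c8babbbd3418babbbd342acacacacffac3c8babbbd3498babbbd34aabbbbcbcbcbcbcbcbcbcbcff2c1a9babbbcb0a9babbbd30aaaba8babbbd34a9babbbd34a419babbbcb0a9babbbd30aaaba8babbbd34a9babbbd34a418b8b8b8b8b8b8cffff8cff3aacacacacffac3c8babbbcb418babbbcb42acacacacffac3c8babbbd3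418babbbd342acacacacffac3c8babbbd3498babbbd34aabbbbcbcbcbcbcbcbcbcbcff2c309bffbcbcbcbc2c9babbbcb309bffbcbcbcbc2c9babbbd330abacacacacffac3c9babbbd3499babbbd349bbbcbcbcbcffbcbcbc2c4200a2ffacacacac3ca3abbbc30aa2ffacacacac3ca3abbbcb0aabbbacacacacffac3c8babbbcb41bcbcbcbcffbc2ca3abbbcb4130a3abbbc30aa3abbbcb0aaaba8babbbcb42a3abbbcb4230a2ffacacacac3ca3abbbc30aa2ffacacacac3ca3abbbd30aabbbacacacacffac3c8babbbd341bcbcbcbcffbc2ca3abbbd34130a3abbbc30aa3abbbd30aaaba8babbbd342a3abbbd34230a2ffacacacac3ca3abbbcb0aa2ffacacacac3ca3abbbd30aabbbacacacacffac3c8babbbd349bcbcbcbcffbc2ca3abbbd34930a3abbbcb0aa3abbbd30aaaba8babbbd34aa3abbbd34a308b8b8b8b8b8b8cffff8cff2aacacacacffac3c8babbbcb418babbbcb42acacacacffac3c8babbbd3418babbbd342acacacacffac3c8babbbd3498babbbd34aabbbbcbcbcbcbcbcbcbcbcff2c22a3abbbcb0aa3abbbd30aaaba8babbbd34aa3abbbd34a41a3abbbcb0aa3abbbd30aaaba8babbbd34aa3abbbd34a418b8b8b8b8b8b8cffff8cff3aacacacacffac3c8babbbcb418babbbcb42acacacacffac3c8babbbd3418babbbd342acacaca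cffac3c8babbbd3498babbbd34aabbbbcbcbcbcbcbcbcbcbcff2c30a3ffbcbcbcbc2ca3abbbcb30a3ffbcbcbcbc2ca3abbbd330abacacacacffac3ca3abbbd349a3abbbd349bbbcbcbcbcffbcbcbc2c4200ff9a9ba2a3ac3ca4bb83a31aabbb9a9affacacac3c9babbbcb00a2a2ffacacac3ca3abbbcb00bcffbcbcbcbc2ca3abbbcb1a30a4bb83a31aaaba9babbbcb02a3abbbcb02a3abbbcb1a30ff9a9ba2a3ac3ca4bb83a31aabbb9a9affacacac3c9babbbd300a2a2ffacacac3ca3abbbd300bcffbcbcbcbc2ca3abbbd31a30a4bb83a31aaaba9babbbd302a3abbbd302a3abbbd31a30aabcffbcbcbcbc2ca3abbbcb1abcffbcbcbcbc2ca3abbbd31aabbbbcbcbcbcffbc2c9babbbd348bcbcbcbcffbc2ca3abbbd34802a3abbbcb1aa3abbbd31aaaba9babbbd34aa3abbbd34a00ba9bffbcbcbcbc2c9babbbcb309bffbcbcbcbc2c9babbbd330abacacacacffac3c9babbbd34a9babbbd34abbbcbcbcbcffbcbcbc2c00a3ffbcbcbcbc2ca3abbbcb30a3ffbcbcbcbc2ca3abbbd330abacacacacffac3ca3abbbd34aa3abbbd34abbbcbcbcbcffbcbcbc2c00bcffbcbcbcbc2ca3abbbcb1abcffbcbcbcbc2ca3abbbd31aabbbbcbcbcbcffbc2c9babbbd348bcbcbcbcffbc2ca3abbbd34832a3abbbcb1aa3abbbd31aaaba9babbbd34aa3abbbd34a30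41bcffbcbcbcbc2ca3abbbc319bcffbcbcbcbc2ca3abbbcb19abbbbcbcbcbcffbc2c9babbbcb40bcbcbcbcffbc2ca3abbbcb400aa3abbbc30aa3abbbcb0aaaba8babbbcb42a3abbbcb4219bcffbcbcbcbc2ca3abbbc319bcffbcbcbcbc2ca3abbbd319abbbbcbcbcbcffbc2c9babbbd340bcbcbcbcffbc2ca3abbbd3400aa3abbbc30aa3abbbd30aaaba8babbbd342a3abbbd34219bcffbcbcbcbc2ca3abbbcb19bcffbcbcbcbc2ca3abbbd319abbbbcbcbcbcffbc2c9babbbd348bcbcbcbcffbc2ca3abbbd3480aa3abbbcb0aa3abbbd30aaaba8babbbd34aa3abbbd34a198b8b8b8b8b8b8cff8cffff2a8b8b8b8b8b8b8cff8cffff3aacacacacffac3c8babbbcb408babbbcb42acacacacffac3c8babbbd3408babbbd342acacacacffac3c8babbbd3488babbbd34aabbbbcbcbcbcbcbcbcbcbcff2c199babbbcb0a9babbbd30aaaba8babbbd34a9babbbd34a40acacacacffac3c8babbbcb408babbbcb42acacacacffac3c8babbbd3408babbbd342acacacacffac3c8babbbd3488babbbd34aabbbbcbcbcbcbcbcbcbcbcff2c21a3abbbcb0aa3abbbd30aaaba8babbbd34aa3abbbd34a40bcffbcbcbcbc2ca3abbbcb19bcffbcbcbcbc2ca3abbbd319abbbbcbcbcbcffbc2c9babbbd348bcbcbcbcffbc2ca3abbbd3484231a3abbbc31aa3abbbcb1aaaba9babbbcb42a3abbbcb4209a3abbbc31aa3abbbd31aaaba9babbbd342a3abbbd34209a3abbbcb1aa3abbbd31aaaba9babbbd34aa3abbbd34a09a9b99babbbcb0a9babbbd30aaaba8babbbd34a9babbbd34a41a3abbbcb0aa3abbbd30aaaba8babbbd34aa3abbbd34a41a3abbbcb1aa3abbbd31aaaba9babbbd34aa3abbbd34a413010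

set_option maxRecDepth 100000 in
theorem check1 : chkA [0, 1, 2, 3, 4] 12 0 0 cert1 = some 0 := by decide +kernel

theorem alice_normal_5 : AliceWins G11 5 (Legal G11 5) true (fun _ => none) :=
  chkA_sound (k := 5) (by rfl) 12 0 0 cert1 0 _ (R_zero _) check1

/-! ### The greedy colour -/

def gcol (S v : ℕ) (l : List ℕ) : Option ℕ :=
  List.rec (motive := fun _ => Option ℕ) none (fun a _ ih => cond (freeB S v a) (some a) ih) l

theorem gcol_none {S v : ℕ} {l : List ℕ} (h : gcol S v l = none) : ∀ a ∈ l, freeB S v a = false := by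
  induction l with
  | nil => simp
  | cons x l ih =>
    have h' : cond (freeB S v x) (some x) (gcol S v l) = none := h
    cases hx : freeB S v x with
    | true => rw [hx] at h'; exact absurd h' (by simp)
    | false =>
      rw [hx] at h'
      simp only [cond_false] at h'
      intro a ha
      rcases List.mem_cons.1 ha with rfl | ha
      · exact hx
      · exact ih h' a ha

theorem gcol_some {S v a : ℕ} {l : List ℕ} (hs : l.Pairwise (· < ·)) (h : gcol S v l = some a) :
    a ∈ l ∧ freeB S v a = true ∧ ∀ b ∈ l, b < a → freeB S v b = false := by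
  induction l with
  | nil => exact absurd h (by simp [gcol])
  | cons x l ih =>
    have h' : cond (freeB S v x) (some x) (gcol S v l) = some a := h
    rw [List.pairwise_cons] at hs
    cases hx : freeB S v x with
    | true =>
      rw [hx] at h'
      simp only [cond_true, Option.some.injEq] at h'
      subst h'
      refine ⟨by simp, hx, fun b hb hlt => ?_⟩
      rcases List.mem_cons.1 hb with rfl | hb
      · exact absurd hlt (lt_irrefl _)
      · exact absurd (hs.1 b hb) (not_lt.2 hlt.le)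
    | false =>
      rw [hx] at h'
      simp only [cond_false] at h'
      obtain ⟨h1, h2, h3⟩ := ih hs.2 h'
      refine ⟨by simp [h1], h2, fun b hb hlt => ?_⟩
      rcases List.mem_cons.1 hb with rfl | hb
      · exact hx
      · exact h3 b hb hlt

theorem gcol_sound {cs : List ℕ} (hcs : IsColors k cs) {D S : ℕ} {c : Fin 11 → Option ℕ} (h : R cs D S c)
    (v : Fin 11) {a : ℕ} (hv : uncB D v = true) (hg : gcol S v cs = some a) :
    GreedyLegal G11 k c v a := by
  have hs : cs.Pairwise (· < ·) := by rw [hcs]; exact List.pairwise_lt_range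
  obtain ⟨h1, h2, h3⟩ := gcol_some hs hg
  refine ⟨(legal_iff hcs h v a).2 ⟨hv, h1, h2⟩, fun b hb => ?_⟩
  have hbcs : b ∈ cs := (mem_cs hcs).2 (hb.trans ((mem_cs hcs).1 h1))
  have h4 := h3 b hbcs hb
  by_contra hno
  push Not at hno
  have := (freeB_iff h v hbcs).2 hno
  rw [h4] at this
  exact absurd this (by simp)

theorem gcol_complete {cs : List ℕ} (hcs : IsColors k cs) {D S : ℕ} {c : Fin 11 → Option ℕ}
    (h : R cs D S c) (v : Fin 11) {a : ℕ} (hg : GreedyLegal G11 k c v a) : gcol S v cs = some a := by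
  have h1 := (legal_iff hcs h v a).1 hg.1
  cases h2 : gcol S v cs with
  | none =>
    have := gcol_none h2 a h1.2.1
    rw [h1.2.2] at this
    exact absurd this (by simp)
  | some b =>
    have := greedy_unique (gcol_sound hcs h v h1.1 h2) hg
    rw [this]

/-! ### Checker 2: Alice wins the greedy game -/

def innerG (F : ℕ → ℕ → ℕ → Option ℕ) (cs : List ℕ) (D S v N : ℕ) : Option ℕ :=
  bindR (gcol S v cs) (fun a => F (setD D v) (setS S v a) N)

def outerG (F : ℕ → ℕ → ℕ → Option ℕ) (cs : List ℕ) (D S : ℕ) (l : List ℕ) : ℕ → Option ℕ :=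
  List.rec (motive := fun _ => ℕ → Option ℕ) (fun N => some N)
    (fun v _ ih N => cond (uncB D v) (bindR (innerG F cs D S v N) (fun N' => ih N')) (ih N)) l

def chkGB (F : ℕ → ℕ → ℕ → Option ℕ) (cs : List ℕ) (D S N : ℕ) : Option ℕ :=
  cond (liveB cs D S) (outerG F cs D S vs N) none

def moveG (F : ℕ → ℕ → ℕ → Option ℕ) (cs : List ℕ) (D S v : ℕ) (fl : Bool) (N : ℕ) : Option ℕ :=
  cond (memB v vs) (cond (uncB D v) (bindR (gcol S v cs) (fun a =>
    (cond fl (cond (safeB cs (setD D v) (setS S v a)) (some N) none)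
      (chkGB F cs (setD D v) (setS S v a) N)))) none) none

def chkGA (cs : List ℕ) (fuel : ℕ) : ℕ → ℕ → ℕ → Option ℕ :=
  Nat.rec (motive := fun _ => ℕ → ℕ → ℕ → Option ℕ) (fun _ _ _ => none)
    (fun _ F D S N => force N (fun N =>
      cond (Nat.beq (Nat.mod N 256) 255) (cond (safeB cs D S) (some (Nat.div N 256)) none)
        (moveG F cs D S (Nat.div (Nat.mod N 128) 8)
          (Nat.ble 128 (Nat.mod N 256)) (Nat.div N 256)))) fuel

theorem outerG_sound {cs : List ℕ} (hcs : IsColors k cs) {F : ℕ → ℕ → ℕ → Option ℕ} {D S : ℕ}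
    {c : Fin 11 → Option ℕ} (hR : R cs D S c)
    (hF : ∀ D S N N' c, R cs D S c → F D S N = some N' →
      AliceWins G11 k (GreedyLegal G11 k) true c)
    (l : List ℕ) : ∀ (N N' : ℕ),
    outerG F cs D S l N = some N' →
    ∀ v : Fin 11, (v : ℕ) ∈ l → ∀ a, GreedyLegal G11 k c v a →
      AliceWins G11 k (GreedyLegal G11 k) true (update c v (some a)) := by
  induction l with
  | nil => intro N N' _ v hv; exact absurd hv (by simp)
  | cons x l ih =>
    intro N N' hin v hv a hleg
    have hin' : cond (uncB D x) (bindR (innerG F cs D S x N)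
      (fun N' => outerG F cs D S l N')) (outerG F cs D S l N) = some N' := hin
    have hl1 := (legal_iff hcs hR v a).1 hleg.1
    cases hunc : uncB D x with
    | false =>
      rw [hunc] at hin'
      simp only [cond_false] at hin'
      rcases List.mem_cons.1 hv with hv' | hv'
      · rw [← hv', hl1.1] at hunc; exact absurd hunc (by simp)
      · exact ih N N' hin' v hv' a hleg
    | true =>
      rw [hunc] at hin'
      simp only [cond_true] at hin'
      obtain ⟨y, hy, hy'⟩ := bindR_some hin'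
      rcases List.mem_cons.1 hv with hv' | hv'
      · rw [← hv'] at hy
        obtain ⟨b, hb, hb'⟩ := bindR_some hy
        rw [gcol_complete hcs hR v hleg] at hb
        have := Option.some.inj hb
        subst this
        exact hF _ _ _ _ _ (R_update hR v hl1.2.1 hleg.1.1) hb'
      · exact ih y N' hy' v hv' a hleg

theorem chkGB_sound {cs : List ℕ} (hcs : IsColors k cs) {F : ℕ → ℕ → ℕ → Option ℕ} {D S N N' : ℕ}
    {c : Fin 11 → Option ℕ} (hR : R cs D S c)
    (hF : ∀ D S N N' c, R cs D S c → F D S N = some N' →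
      AliceWins G11 k (GreedyLegal G11 k) true c)
    (h : chkGB F cs D S N = some N') : AliceWins G11 k (GreedyLegal G11 k) false c := by
  unfold chkGB at h
  cases hl : liveB cs D S with
  | false => rw [hl] at h; exact absurd h (by simp)
  | true =>
    rw [hl] at h
    simp only [cond_true] at h
    exact AliceWins.bob c (liveB_sound hcs hR hl) (fun v a hleg =>
      outerG_sound hcs hR hF vs N N' h v ((mem_vs v).2 v.2) a hleg)

theorem chkGA_sound {cs : List ℕ} (hcs : IsColors k cs) (fuel : ℕ) : ∀ D S N N' c, R cs D S c →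
    chkGA cs fuel D S N = some N' → AliceWins G11 k (GreedyLegal G11 k) true c := by
  have sw : ∀ (t : Bool) (c : Fin 11 → Option ℕ), Safe G11 k c →
      AliceWins G11 k (GreedyLegal G11 k) t c := fun t c hs =>
    safe_wins (fun _ _ _ h => h) (fun _ _ _ h => h.1) _ t c le_rfl hs
  induction fuel with
  | zero => intro D S N N' c _ h; exact absurd h (by simp [chkGA])
  | succ f ih =>
    intro D S N N' c hR h
    have h' : force N (fun N =>
      cond (Nat.beq (Nat.mod N 256) 255) (cond (safeB cs D S) (some (Nat.div N 256)) none)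
        (moveG (chkGA cs f) cs D S (Nat.div (Nat.mod N 128) 8)
          (Nat.ble 128 (Nat.mod N 256)) (Nat.div N 256))) = some N' := h
    rw [force_eq] at h'
    cases h1 : Nat.beq (Nat.mod N 256) 255 with
    | true =>
      rw [h1] at h'
      simp only [cond_true] at h'
      cases h2 : safeB cs D S with
      | false => rw [h2] at h'; exact absurd h' (by simp)
      | true => exact sw true c (safeB_sound hcs hR h2)
    | false =>
      rw [h1] at h'
      simp only [cond_false] at h'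
      generalize Nat.div (Nat.mod N 128) 8 = v at h'
      generalize Nat.ble 128 (Nat.mod N 256) = fl at h'
      unfold moveG at h'
      cases m1 : memB v vs with
      | false => rw [m1] at h'; exact absurd h' (by simp)
      | true =>
      cases m3 : uncB D v with
      | false => rw [m1, m3] at h'; exact absurd h' (by simp)
      | true =>
      rw [m1, m3] at h'
      simp only [cond_true] at h'
      obtain ⟨a, ha, h'⟩ := bindR_some h'
      have hv : v < 11 := (mem_vs v).1 ((memB_iff v vs).1 m1)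
      have hleg : GreedyLegal G11 k c ⟨v, hv⟩ a := gcol_sound hcs hR ⟨v, hv⟩ m3 ha
      have hR' : R cs (setD D v) (setS S v a) (update c ⟨v, hv⟩ (some a)) :=
        R_update hR ⟨v, hv⟩ ((mem_cs hcs).2 hleg.1.2.1) hleg.1.1
      have hB : AliceWins G11 k (GreedyLegal G11 k) false (update c ⟨v, hv⟩ (some a)) := by
        cases hfl : fl with
        | true =>
          rw [hfl] at h'
          simp only [cond_true] at h'
          cases h2 : safeB cs (setD D v) (setS S v a) with
          | false => rw [h2] at h'; exact absurd h' (by simp)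
          | true => exact sw false _ (safeB_sound hcs hR' h2)
        | false =>
          rw [hfl] at h'
          simp only [cond_false] at h'
          exact chkGB_sound hcs hR' ih h'
      exact AliceWins.alice c ⟨v, hv⟩ a (alive_of_update hleg.1 hB.isAlive) hleg hB

/-! ### Checker 3: Bob wins the greedy game -/

def orSkip (o : Option ℕ) (f : ℕ → Option ℕ) (d : Option ℕ) : Option ℕ :=
  Option.rec (motive := fun _ => Option ℕ) d (fun x => f x) o

def replyC (F : ℕ → ℕ → ℕ → Option ℕ) (cs : List ℕ) (D S N : ℕ) : Option ℕ :=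
  force N (fun N => cond (memB (Nat.mod N 16) vs) (cond (uncB D (Nat.mod N 16))
    (orSkip (gcol S (Nat.mod N 16) cs)
      (fun a => F (setD D (Nat.mod N 16)) (setS S (Nat.mod N 16) a) (Nat.div N 16))
      (some (Nat.div N 16))) none) none)

def outerC (F : ℕ → ℕ → ℕ → Option ℕ) (cs : List ℕ) (D S : ℕ) (l : List ℕ) : ℕ → Option ℕ :=
  List.rec (motive := fun _ => ℕ → Option ℕ) (fun N => some N)
    (fun v _ ih N => cond (uncB D v)
      (orSkip (gcol S v cs)
        (fun a => bindR (replyC F cs (setD D v) (setS S v a) N) (fun N' => ih N')) (ih N))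
      (ih N)) l

def chkC (cs : List ℕ) (fuel : ℕ) : ℕ → ℕ → ℕ → Option ℕ :=
  Nat.rec (motive := fun _ => ℕ → ℕ → ℕ → Option ℕ) (fun _ _ _ => none)
    (fun _ F D S N => force N (fun N =>
      cond (Nat.beq (Nat.mod N 16) 15) (cond (liveB cs D S) none (some (Nat.div N 16)))
        (cond (anyR (fun v => uncB D v) vs) (outerC F cs D S vs (Nat.div N 16)) none))) fuel

theorem replyC_sound {cs : List ℕ} (hcs : IsColors k cs) {F : ℕ → ℕ → ℕ → Option ℕ} {D S N N' : ℕ}
    {c : Fin 11 → Option ℕ} (hR : R cs D S c)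
    (hF : ∀ D S N N' c, R cs D S c → F D S N = some N' →
      ¬ AliceWins G11 k (GreedyLegal G11 k) true c)
    (h : replyC F cs D S N = some N') : ¬ AliceWins G11 k (GreedyLegal G11 k) false c := by
  unfold replyC at h
  rw [force_eq] at h
  generalize Nat.mod N 16 = v at h
  cases m1 : memB v vs with
  | false => rw [m1] at h; exact absurd h (by simp)
  | true =>
  cases m3 : uncB D v with
  | false => rw [m1, m3] at h; exact absurd h (by simp)
  | true =>
  rw [m1, m3] at h
  simp only [cond_true] at h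
  have hv : v < 11 := (mem_vs v).1 ((memB_iff v vs).1 m1)
  have hcv : c ⟨v, hv⟩ = none := (hR.1 ⟨v, hv⟩).2 ((uncB_iff D v).1 m3)
  intro hA
  cases hg : gcol S v cs with
  | none =>
    obtain ⟨b, hb⟩ := hA.isAlive ⟨v, hv⟩ hcv
    have h1 := (legal_iff hcs hR ⟨v, hv⟩ b).1 hb
    have h2 := gcol_none hg b h1.2.1
    have h3 : freeB S v b = true := h1.2.2
    rw [h2] at h3
    exact absurd h3 (by simp)
  | some a =>
    rw [hg] at h
    have h' : F (setD D v) (setS S v a) (Nat.div N 16) = some N' := h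
    have hleg : GreedyLegal G11 k c ⟨v, hv⟩ a := gcol_sound hcs hR ⟨v, hv⟩ m3 hg
    have hR' : R cs (setD D v) (setS S v a) (update c ⟨v, hv⟩ (some a)) :=
      R_update hR ⟨v, hv⟩ ((mem_cs hcs).2 hleg.1.2.1) hleg.1.1
    have h1 := hF _ _ _ _ _ hR' h'
    cases hA with
    | finished t c h => exact h ⟨v, hv⟩ hcv
    | bob c ha hw => exact h1 (hw ⟨v, hv⟩ a hleg)

theorem outerC_sound {cs : List ℕ} (hcs : IsColors k cs) {F : ℕ → ℕ → ℕ → Option ℕ} {D S : ℕ}
    {c : Fin 11 → Option ℕ} (hR : R cs D S c)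
    (hF : ∀ D S N N' c, R cs D S c → F D S N = some N' →
      ¬ AliceWins G11 k (GreedyLegal G11 k) true c)
    (l : List ℕ) : ∀ (N N' : ℕ),
    outerC F cs D S l N = some N' →
    ∀ v : Fin 11, (v : ℕ) ∈ l → ∀ a, GreedyLegal G11 k c v a →
      ¬ AliceWins G11 k (GreedyLegal G11 k) false (update c v (some a)) := by
  induction l with
  | nil => intro N N' _ v hv; exact absurd hv (by simp)
  | cons x l ih =>
    intro N N' hin v hv a hleg
    have hin' : cond (uncB D x)
      (orSkip (gcol S x cs)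
        (fun a => bindR (replyC F cs (setD D x) (setS S x a) N) (fun N' => outerC F cs D S l N'))
        (outerC F cs D S l N))
      (outerC F cs D S l N) = some N' := hin
    have hl1 := (legal_iff hcs hR v a).1 hleg.1
    cases hunc : uncB D x with
    | false =>
      rw [hunc] at hin'
      simp only [cond_false] at hin'
      rcases List.mem_cons.1 hv with hv' | hv'
      · rw [← hv', hl1.1] at hunc; exact absurd hunc (by simp)
      · exact ih N N' hin' v hv' a hleg
    | true =>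
      rw [hunc] at hin'
      simp only [cond_true] at hin'
      cases hg : gcol S x cs with
      | none =>
        rw [hg] at hin'
        have hin2 : outerC F cs D S l N = some N' := hin'
        rcases List.mem_cons.1 hv with hv' | hv'
        · rw [← hv', gcol_complete hcs hR v hleg] at hg
          exact absurd hg (by simp)
        · exact ih N N' hin2 v hv' a hleg
      | some b =>
        rw [hg] at hin'
        have hin2 : bindR (replyC F cs (setD D x) (setS S x b) N) (fun N' => outerC F cs D S l N') =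
          some N' := hin'
        obtain ⟨y, hy, hy'⟩ := bindR_some hin2
        rcases List.mem_cons.1 hv with hv' | hv'
        · rw [← hv', gcol_complete hcs hR v hleg] at hg
          have := Option.some.inj hg
          subst this
          rw [← hv'] at hy
          exact replyC_sound hcs (R_update hR v hl1.2.1 hleg.1.1) hF hy
        · exact ih y N' hy' v hv' a hleg

theorem chkC_sound {cs : List ℕ} (hcs : IsColors k cs) (fuel : ℕ) : ∀ D S N N' c, R cs D S c →
    chkC cs fuel D S N = some N' → ¬ AliceWins G11 k (GreedyLegal G11 k) true c := by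
  induction fuel with
  | zero => intro D S N N' c _ h; exact absurd h (by simp [chkC])
  | succ f ih =>
    intro D S N N' c hR h
    have h' : force N (fun N =>
      cond (Nat.beq (Nat.mod N 16) 15) (cond (liveB cs D S) none (some (Nat.div N 16)))
        (cond (anyR (fun v => uncB D v) vs) (outerC (chkC cs f) cs D S vs (Nat.div N 16)) none)) =
          some N' := h
    rw [force_eq] at h'
    cases h1 : Nat.beq (Nat.mod N 16) 15 with
    | true =>
      rw [h1] at h'
      simp only [cond_true] at h'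
      cases h2 : liveB cs D S with
      | true => rw [h2] at h'; exact absurd h' (by simp)
      | false => exact fun hA => liveB_complete hcs hR h2 hA.isAlive
    | false =>
      rw [h1] at h'
      simp only [cond_false] at h'
      cases h2 : anyR (fun v => uncB D v) vs with
      | false => rw [h2] at h'; exact absurd h' (by simp)
      | true =>
        rw [h2] at h'
        simp only [cond_true] at h'
        rw [anyR_iff] at h2
        obtain ⟨v, hv, hv2⟩ := h2
        have hv3 : v < 11 := (mem_vs v).1 hv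
        have hcv : c ⟨v, hv3⟩ = none := (hR.1 ⟨v, hv3⟩).2 ((uncB_iff D v).1 hv2)
        intro hA
        cases hA with
        | finished t c h => exact h ⟨v, hv3⟩ hcv
        | alice c w a ha hm hw =>
          exact outerC_sound hcs hR ih vs _ N' h' w ((mem_vs w).2 w.2) a hm hw

def cert2 : ℕ := 0xa8a8aaffa8a8a8a809a8a8aaffa8a8a8a809a8a8aaffa8a8a8a809a989a8a8a8aaffa8a8a801a8a8a8aaffa8a8a801a8a8a8aaffa8a8a801a8a8a8a8a9ffa8a8a80a38

set_option maxRecDepth 100000 in
theorem check2 : chkGA [0, 1, 2, 3, 4, 5] 12 0 0 cert2 = some 0 := by decide +kernel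

theorem alice_greedy_6 : AliceWins G11 6 (GreedyLegal G11 6) true (fun _ => none) :=
  chkGA_sound (k := 6) (by rfl) 12 0 0 cert2 0 _ (R_zero _) check2

def cert3 : ℕ := 0xf334e2f3f3f4e23f37e24f47e24f47e3e1f334e2f334e2f2f2f3e1f3f3f4e2f334e2f337e2f447e2f447e3e13f37e2f2f337e2f2f3e14f47e2f2f447e2f2f4e14f47e3f3f447e3f3f4e14f47e3f3f447e3f3f4e2e5f334e2f3f3f4e23f37e24f47e24f47e3e1f334e2f334e2f2f2f3e1f3f3f4e2f334e2f337e2f447e2f447e3e13f37e2f2f337e2f2f3e14f47e2f2f447e2f2f4e14f47e3f3f447e3f3f4e14f47e3f3f447e3f3f4e2e5f334e2f334e2f2f2f3e1f334e2f334e2f2f2f3e1f334e2f334e2f2f2f3e1f2f2f223e1f2f2f224e1f3f3f334e1f3f3f334e2e5f3f3f4e2f334e2f337e2f447e2f447e3e5f3f3f4e2f334e2f337e2f447e2f447e3e5f334e2f334e2f2f2f3e5f447e3f447e3f3f3f4e2f337e2f337e2f2f2f3e5f447e2f447e2f2f2f4e5f447e3f447e3f3f3f4e5e14f47e3f3f447e3f3f4e24f47e3f3f447e3f3f4e2f3f3f334e2f447e3f447e3f3f3f4e2f3f33f37e2f4f44f47e2f4f44f47e3e13f37e2f2f337e2f2f3e13f37e2f2f337e2f2f3e1f2f2f223e1f337e2f337e2f2f2f3e1f2f22f27e1f3f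33f37e1f3f33f37e2e54f47e2f2f447e2f2f4e14f47e2f2f447e2f2f4e1f2f2f224e1f447e2f447e2f2f2f4e1f2f22f27e1f4f44f47e1f4f44f47e2e54f47e3f3f447e3f3f4e14f47e3f3f447e3f3f4e1f3f3f334e1f447e3f447e3f3f3f4e1f3f33f37e1f4f44f47e1f4f44f47e3e54f47e3f3f447e3f3f4e24f47e3f3f447e3f3f4e2f3f3f334e2f447e3f447e3f3f3f4e2f3f33f37e2f4f44f47e2f4f44f47e3e5e0f334e2f3f3f4e23f37e24f47e24f47e3e1f334e2f334e2f2f2f3e1f3f3f4e2f334e2f337e2f447e2f447e3e13f37e2f2f337e2f2f3e14f47e2f2f447e2f2f4e14f47e3f3f447e3f3f4e14f47e3f3f447e3f3f4e2e5f334e2f3f3f4e23f37e24f47e24f47e3e1f334e2f334e2f2f2f3e1f3f3f4e2f334e2f337e2f447e2f447e3e13f37e2f2f337e2f2f3e14f47e2f2f447e2f2f4e14f47e3f3f447e3f3f4e14f47e3f3f447e3f3f4e2e5f334e2f334e2f2f2f3e1f334e2f334e2f2f2f3e1f334e2f334e2f2f2f3e1f2f2f223e1f2f2f224e1f3f3f334e1f3f3f334e2e5f3f3f4e2f334e2f337e2f447e2f447e3e5f3f3f4e2f334e2f337e2f447e2f447e3e5f334e2f334e2f2f2f3e5f447e3f447e3f3f3f4e2f337e2f337e2f2f2f3e5f447e2f447e2f2f2f4e5f447e3f447e3f3f3f4e5e14f47e3f3f447e3f3f4e24f47e3f3f447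e3f3f4e2f3f3f334e2f447e3f447e3f3f3f4e2f3f33f37e2f4f44f47e2f4f44f47e3e13f37e2f2f337e2f2f3e13f37e2f2f337e2f2f3e1f2f2f223e1f337e2f337e2f2f2f3e1f2f22f27e1f3f33f37e1f3f33f37e2e54f47e2f2f447e2f2f4e14f47e2f2f447e2f2f4e1f2f2f224e1f447e2f447e2f2f2f4e1f2f22f27e1f4f44f47e1f4f44f47e2e54f47e3f3f447e3f3f4e14f47e3f3f447e3f3f4e1f3f3f334e1f447e3f447e3f3f3f4e1f3f33f37e1f4f44f47e1f4f44f47e3e54f47e3f3f447e3f3f4e24f47e3f3f447e3f3f4e2f3f3f334e2f447e3f447e3f3f3f4e2f3f33f37e2f4f44f47e2f4f44f47e3e5e0f334e2f3f3f4e23f37e24f47e24f47e3e1f334e2f334e2f2f2f3e1f3f3f4e2f334e2f337e2f447e2f447e3e13f37e2f2f337e2f2f3e14f47e2f2f447e2f2f4e14f47e3f3f447e3f3f4e14f47e3f3f447e3f3f4e2e5f334e2f3f3f4e23f37e24f47e24f47e3e1f334e2f334e2f2f2f3e1f3f3f4e2f334e2f337e2f447e2f447e3e13f37e2f2f337e2f2f3e14f47e2f2f447e2f2f4e14f47e3f3f447e3f3f4e14f47e3f3f447e3f3f4e2e5f334e2f334e2f2f2f3e1f334e2f334e2f2f2f3e1f334e2f334e2f2f2f3e1f2f2f223e1f2f2f224e1f3f3f334e1f3f3f334e2e5f3f3f4e2f334e2f337e2f447e2f447e3e5f3f3f4e2f334e2f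337e2f447e2f447e3e5f334e2f334e2f2f2f3e5f447e3f447e3f3f3f4e2f337e2f337e2f2f2f3e5f447e2f447e2f2f2f4e5f447e3f447e3f3f3f4e5e14f47e3f3f447e3f3f4e24f47e3f3f447e3f3f4e2f3f3f334e2f447e3f447e3f3f3f4e2f3f33f37e2f4f44f47e2f4f44f47e3e13f37e2f2f337e2f2f3e13f37e2f2f337e2f2f3e1f2f2f223e1f337e2f337e2f2f2f3e1f2f22f27e1f3f33f37e1f3f33f37e2e54f47e2f2f447e2f2f4e14f47e2f2f447e2f2f4e1f2f2f224e1f447e2f447e2f2f2f4e1f2f22f27e1f4f44f47e1f4f44f47e2e54f47e3f3f447e3f3f4e14f47e3f3f447e3f3f4e1f3f3f334e1f447e3f447e3f3f3f4e1f3f33f37e1f4f44f47e1f4f44f47e3e54f47e3f3f447e3f3f4e24f47e3f3f447e3f3f4e2f3f3f334e2f447e3f447e3f3f3f4e2f3f33f37e2f4f44f47e2f4f44f47e3e5e045f4e3f3535e0545e0545e3e245f4e3f3535e0545e0545e3e2f3f334f3e2535e0535e035f3e2545e0545e045f4e2545e0545e045f4e3545e3545e3f3f3f4e2e145f4e3f3535e0545e0545e3e245f4e3f3535e0545e0545e3e2f3f334f3e2535e0535e035f3e2545e0545e045f4e2545e0545e045f4e3545e3545e3f3f3f4e2e145f4e3f3535e0545e0545e3e245f4e3f3535e0545e0545e3e2f3f334f3e2535e0535e035f3e2545e05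45e045f4e2545e0545e045f4e3545e3545e3f3f3f4e2e1f334e2f334e2f2f2f3e1f334e2f334e2f2f2f3e1f334e2f334e2f2f2f3e1f2f2f223e1f2f2f224e1f3f3f334e1f3f3f334e2e089f8f8f2e58af8f8f2e59af9f9f2e59af9f9f9e8525e1525e1f99af9e5525e9e8535e1535e1f99af9e5535e9e8535e2535e2f2f2f3e8e089f8f8f2e58af8f8f2e59af9f9f2e59af9f9f9e8525e1525e1f99af9e5525e9e8545e1545e1f99af9e5545e9e8545e2545e2f2f2f4e8e089f8f8f3e58af8f8f3e59af9f9f3e59af9f9f9e8535e1535e1f99af9e5535e9e8545e1545e1f99af9e5545e9e8545e3545e3f3f3f4e8e0545e0545e045f4e3545e0545e045f4e3545e0545e045f4e3f8f8f99af9e89af9e8e0535e0535e035f3e8545e0545e045f4e8545e3545e3f3f3f4e8e259535e1545e1545e3e25a535e1545e1545e3e2f334e2f334e2f2f2f3e19af9f9f2e59af9f9f2e59af9f9f3e5545e3545e3f3f3f4e2e8e645f4e3f3535e0545e0545e3e245f4e3f3535e0545e0545e3e2f3f334f3e2535e0535e035f3e2545e0545e045f4e2545e0545e045f4e3545e3545e3f3f3f4e2e145f4e3f3535e0545e0545e3e245f4e3f3535e0545e0545e3e2f3f334f3e2535e0535e035f3e2545e0545e045f4e2545e0545e045f4e3545e3545e3f3f3f4e2e145f4e3f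3535e0545e0545e3e245f4e3f3535e0545e0545e3e2f3f334f3e2535e0535e035f3e2545e0545e045f4e2545e0545e045f4e3545e3545e3f3f3f4e2e1f334e2f334e2f2f2f3e1f334e2f334e2f2f2f3e1f334e2f334e2f2f2f3e1f2f2f223e1f2f2f224e1f3f3f334e1f3f3f334e2e089f8f8f2e58af8f8f2e59af9f9f2e59af9f9f9e8525e1525e1f99af9e5525e9e8535e1535e1f99af9e5535e9e8535e2535e2f2f2f3e8e089f8f8f2e58af8f8f2e59af9f9f2e59af9f9f9e8525e1525e1f99af9e5525e9e8545e1545e1f99af9e5545e9e8545e2545e2f2f2f4e8e089f8f8f3e58af8f8f3e59af9f9f3e59af9f9f9e8535e1535e1f99af9e5535e9e8545e1545e1f99af9e5545e9e8545e3545e3f3f3f4e8e0545e0545e045f4e3545e0545e045f4e3545e0545e045f4e3f8f8f99af9e89af9e8e0535e0535e035f3e8545e0545e045f4e8545e3545e3f3f3f4e8e259535e1545e1545e3e25a535e1545e1545e3e2f334e2f334e2f2f2f3e19af9f9f2e59af9f9f2e59af9f9f3e5545e3545e3f3f3f4e2e8e74f47e3f3f447e3f3f4e24f47e3f3f447e3f3f4e2f3f3f334e2f447e3f447e3f3f3f4e2f3f33f37e2f4f44f47e2f4f44f47e3e14f47e3f3f447e3f3f4e24f47e3f3f447e3f3f4e2f3f3f334e2f447e3f447e3f3f3f4e2f3f33f37e2f4f44f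47e2f4f44f47e3e14f47e3f3f447e3f3f4e24f47e3f3f447e3f3f4e2f3f3f334e2f447e3f447e3f3f3f4e2f3f33f37e2f4f44f47e2f4f44f47e3e1f3f3f334e2f3f3f334e2f3f3f334e2f3f3f334e2f2f2f3e1f447e3f447e3f3f3f4e2f447e3f447e3f3f3f4e2f447e3f447e3f3f3f4e2f3f3f334e2f3f3f337e2f4f4f447e2f4f4f447e3e1f3f33f37e2f3f33f37e2f3f33f37e2f2f3f3f337e2f2f3e1f4f44f47e2f4f44f47e2f4f44f47e2f2f4f4f447e2f2f4e1f4f44f47e3f4f44f47e3f4f44f47e3f3f4f4f447e3f3f4e1f4f44f47e3f4f44f47e3f4f44f47e3f3f4f4f447e3f3f4e2e078f7f7f7e079f7f7f7e089f8f8f8e0f7f7f889f8e789f8e7e0f7f7f889f8e789f8e7e0f7f7f889f8e789f8e7e089f8f8f8e7e578f7f7f7e07af7f7f7e08af8f8f8e0f7f7f88af8e78af8e7e0f7f7f88af8e78af8e7e0f7f7f88af8e78af8e7e08af8f8f8e7e579f7f7f7e07af7f7f7e09af9f9f9e0f7f7f99af9e79af9e7e0f7f7f99af9e79af9e7e0f7f7f99af9e79af9e7e09af9f9f9e7e589f8f8f8e08af8f8f8e09af9f9f9e0f8f8f99af9e89af9e8e0f8f8f99af9e89af9e8e0f8f8f99af9e89af9e8e09af9f9f9e8e5f7f7f889f8e789f8e7e0f7f7f88af8e78af8e7e0f7f7f99af9e79af9e7e0f8f8f99af9e89af9e8e089f8e78af8e79af9e79af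9e8f8f8f9e7e089f8e78af8e79af9e79af9e8f8f8f9e7e0f8f8f99af9e89af9e8e7e589f8f8f8e78af8f8f8e79af9f9f9e79af9f9f9e8f8f8f99af9e89af9e8e7f8f8f99af9e89af9e8e7f8f8f99af9e89af9e8e7e0f7f7f889f8e789f8e7e0f7f7f88af8e78af8e7e0f7f7f99af9e79af9e7e0f8f8f99af9e89af9e8e089f8e78af8e79af9e79af9e8f8f8f9e7e089f8e78af8e79af9e79af9e8f8f8f9e7e0f8f8f99af9e89af9e8e7e5f7f7f889f8e789f8e7e0f7f7f88af8e78af8e7e0f7f7f99af9e79af9e7e0f8f8f99af9e89af9e8e089f8e78af8e79af9e79af9e8f8f8f9e7e089f8e78af8e79af9e79af9e8f8f8f9e7e0f8f8f99af9e89af9e8e7e589f8f8f8e78af8f8f8e79af9f9f9e79af9f9f9e8f8f8f99af9e89af9e8e7f8f8f99af9e89af9e8e7f8f8f99af9e89af9e8e7e5e178f7f7f7e079f7f7f7e089f8f8f8e0f7f7f889f8e789f8e7e0f7f7f889f8e789f8e7e0f7f7f889f8e789f8e7e089f8f8f8e7e578f7f7f7e07af7f7f7e08af8f8f8e0f7f7f88af8e78af8e7e0f7f7f88af8e78af8e7e0f7f7f88af8e78af8e7e08af8f8f8e7e579f7f7f7e07af7f7f7e09af9f9f9e0f7f7f99af9e79af9e7e0f7f7f99af9e79af9e7e0f7f7f99af9e79af9e7e09af9f9f9e7e589f8f8f8e08af8f8f8e09af9f9f9e0f8f8f99af9e89af9e8e0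f8f8f99af9e89af9e8e0f8f8f99af9e89af9e8e09af9f9f9e8e5f7f7f889f8e789f8e7e0f7f7f88af8e78af8e7e0f7f7f99af9e79af9e7e0f8f8f99af9e89af9e8e089f8e78af8e79af9e79af9e8f8f8f9e7e089f8e78af8e79af9e79af9e8f8f8f9e7e0f8f8f99af9e89af9e8e7e589f8f8f8e78af8f8f8e79af9f9f9e79af9f9f9e8f8f8f99af9e89af9e8e7f8f8f99af9e89af9e8e7f8f8f99af9e89af9e8e7e0f7f7f889f8e789f8e7e0f7f7f88af8e78af8e7e0f7f7f99af9e79af9e7e0f8f8f99af9e89af9e8e089f8e78af8e79af9e79af9e8f8f8f9e7e089f8e78af8e79af9e79af9e8f8f8f9e7e0f8f8f99af9e89af9e8e7e5f7f7f889f8e789f8e7e0f7f7f88af8e78af8e7e0f7f7f99af9e79af9e7e0f8f8f99af9e89af9e8e089f8e78af8e79af9e79af9e8f8f8f9e7e089f8e78af8e79af9e79af9e8f8f8f9e7e0f8f8f99af9e89af9e8e7e589f8f8f8e78af8f8f8e79af9f9f9e79af9f9f9e8f8f8f99af9e89af9e8e7f8f8f99af9e89af9e8e7f8f8f99af9e89af9e8e7e5e178f7f7f7e079f7f7f7e089f8f8f8e0f7f7f889f8e789f8e7e0f7f7f889f8e789f8e7e0f7f7f889f8e789f8e7e089f8f8f8e7e578f7f7f7e07af7f7f7e08af8f8f8e0f7f7f88af8e78af8e7e0f7f7f88af8e78af8e7e0f7f7f88af8e78af8e7e08af8f8f8e7e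579f7f7f7e07af7f7f7e09af9f9f9e0f7f7f99af9e79af9e7e0f7f7f99af9e79af9e7e0f7f7f99af9e79af9e7e09af9f9f9e7e589f8f8f8e08af8f8f8e09af9f9f9e0f8f8f99af9e89af9e8e0f8f8f99af9e89af9e8e0f8f8f99af9e89af9e8e09af9f9f9e8e5f7f7f889f8e789f8e7e0f7f7f88af8e78af8e7e0f7f7f99af9e79af9e7e0f8f8f99af9e89af9e8e089f8e78af8e79af9e79af9e8f8f8f9e7e089f8e78af8e79af9e79af9e8f8f8f9e7e0f8f8f99af9e89af9e8e7e589f8f8f8e78af8f8f8e79af9f9f9e79af9f9f9e8f8f8f99af9e89af9e8e7f8f8f99af9e89af9e8e7f8f8f99af9e89af9e8e7e0f7f7f889f8e789f8e7e0f7f7f88af8e78af8e7e0f7f7f99af9e79af9e7e0f8f8f99af9e89af9e8e089f8e78af8e79af9e79af9e8f8f8f9e7e089f8e78af8e79af9e79af9e8f8f8f9e7e0f8f8f99af9e89af9e8e7e5f7f7f889f8e789f8e7e0f7f7f88af8e78af8e7e0f7f7f99af9e79af9e7e0f8f8f99af9e89af9e8e089f8e78af8e79af9e79af9e8f8f8f9e7e089f8e78af8e79af9e79af9e8f8f8f9e7e0f8f8f99af9e89af9e8e7e589f8f8f8e78af8f8f8e79af9f9f9e79af9f9f9e8f8f8f99af9e89af9e8e7f8f8f99af9e89af9e8e7f8f8f99af9e89af9e8e7e5e1f7f7f889f8f8f8e789f8f8f8e789f8f8f8e789f8f8f8e7e0f7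f7f88af8f8f8e78af8f8f8e78af8f8f8e78af8f8f8e7e0f7f7f99af9f9f9e79af9f9f9e79af9f9f9e79af9f9f9e7e0f8f8f99af9f9f9e89af9f9f9e89af9f9f9e89af9f9f9e8e089f8f8f8e78af8f8f8e79af9f9f9e79af9f9f9e8f8f8f99af9e89af9e8e7f8f8f99af9e89af9e8e7f8f8f99af9e89af9e8e7e089f8f8f8e78af8f8f8e79af9f9f9e79af9f9f9e8f8f8f99af9e89af9e8e7f8f8f99af9e89af9e8e7f8f8f99af9e89af9e8e7e089f8f8f8e78af8f8f8e79af9f9f9e79af9f9f9e8f8f8f99af9e89af9e8e7f8f8f99af9e89af9e8e7f8f8f99af9e89af9e8e7e089f8f8f8e78af8f8f8e79af9f9f9e79af9f9f9e8f8f8f99af9e89af9e8e7f8f8f99af9e89af9e8e7f8f8f99af9e89af9e8e7e0f8f8f99af9f9f9e89af9f9f9e89af9f9f9e89af9f9f9e8e7e54f47e3f3f447e3f3f4e24f47e3f3f447e3f3f4e2f3f3f334e2f447e3f447e3f3f3f4e2f3f33f37e2f4f44f47e2f4f44f47e3e14f47e3f3f447e3f3f4e24f47e3f3f447e3f3f4e2f3f3f334e2f447e3f447e3f3f3f4e2f3f33f37e2f4f44f47e2f4f44f47e3e14f47e3f3f447e3f3f4e24f47e3f3f447e3f3f4e2f3f3f334e2f447e3f447e3f3f3f4e2f3f33f37e2f4f44f47e2f4f44f47e3e1f3f3f334e2f3f3f334e2f3f3f334e2f3f3f334e2f2f2f3e1f447e3f447e3f3f3f4e2f447e3f447e3f3f3f4e2f447e3f447e3f3f3f4e2f3f3f334e2f3f3f337e2f4f4f447e2f4f4f447e3e1f3f33f37e2f3f33f37e2f3f33f37e2f2f3f3f337e2f2f3e1f4f44f47e2f4f44f47e2f4f44f47e2f2f4f4f447e2f2f4e1f4f44f47e3f4f44f47e3f4f44f47e3f3f4f4f447e3f3f4e1f4f44f47e3f4f44f47e3f4f44f47e3f3f4f4f447e3f3f4e2e5e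

set_option maxRecDepth 100000 in
theorem check3 : chkC [0, 1, 2, 3, 4] 12 0 0 cert3 = some 0 := by decide +kernel

theorem bob_greedy_5 : ¬ AliceWins G11 5 (GreedyLegal G11 5) true (fun _ => none) :=
  chkC_sound (k := 5) (by rfl) 12 0 0 cert3 0 _ (R_zero _) check3

end

theorem chromatic_eq : gameChromaticNumber G11 = 5 := by
  unfold gameChromaticNumber
  apply le_antisymm
  · exact Nat.sInf_le ⟨by norm_num, alice_normal_5⟩
  · apply le_csInf
    · exact ⟨5, by norm_num, alice_normal_5⟩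
    · rintro k ⟨_, hk⟩
      obtain ⟨f, hf1, hf2⟩ := colorable_of_wins hk (by simp) (by simp)
      have hinj : Set.InjOn f ((({1, 2, 3, 4, 7} : Finset (Fin 11)) : Set (Fin 11))) := by
        intro x hx y hy hxy
        by_contra hne
        have hadj : ∀ x ∈ ({1, 2, 3, 4, 7} : Finset (Fin 11)), ∀ y ∈ ({1, 2, 3, 4, 7} : Finset (Fin 11)),
            x ≠ y → NB.testBit (11 * x + y) = true := by decide
        exact hf2 x y (hadj x hx y hy hne) hxy
      have := Finset.card_le_card_of_injOn (t := Finset.range k) f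
        (fun x _ => by simpa using hf1 x) hinj
      rw [Finset.card_range] at this
      have h5 : ({1, 2, 3, 4, 7} : Finset (Fin 11)).card = 5 := by decide
      omega

theorem grundy_eq : gameGrundyNumber G11 = 6 := by
  unfold gameGrundyNumber
  apply le_antisymm
  · exact Nat.sInf_le ⟨by norm_num, alice_greedy_6⟩
  · apply le_csInf
    · exact ⟨6, by norm_num, alice_greedy_6⟩
    · rintro k ⟨_, hk⟩
      by_contra hlt
      exact bob_greedy_5 (greedy_mono (by omega) hk)

/-- **Main theorem.** There is a graph on 11 vertices with game chromatic number 5 and game Grundy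
number 6. In particular `Γ_g(G) ≤ χ_g(G)` fails. -/
theorem result : ∃ G : SimpleGraph (Fin 11), gameChromaticNumber G = 5 ∧ gameGrundyNumber G = 6 :=
  ⟨G11, chromatic_eq, grundy_eq⟩

end Pool.Agent.Results.MP_e75014_co.GameGrundy
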