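import Mathlib
import Pool.Agent.Zhu.G11

/-!
A graph with game Grundy number larger than its game chromatic number.
-/

set_option autoImplicit false
set_option linter.unusedSectionVars false

namespace Pool.Agent.Results.MP_e75014_co.GrundyAboveChromatic

section Definitions
variable {V : Type} [DecidableEq V]

/-- The legal moves of the coloring game on `G` with the colors `0, …, k-1` in the position `c`
(`c v = none` means that `v` is uncolored): the uncolored vertex `v` may get the color `a` if no
neighbor has this color. -/
def OrdinaryMove (G : SimpleGraph V) (k : ℕ) (c : V → Option ℕ) (v : V) (a : ℕ) : Prop :=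
  c v = none ∧ a < k ∧ ∀ w, G.Adj v w → c w ≠ some a

/-- The legal moves of the greedy coloring game on `G` with the colors `0, …, k-1`: the color `a`
of the uncolored vertex `v` must be the smallest color not used on its colored neighbors. -/
def GreedyMove (G : SimpleGraph V) (k : ℕ) (c : V → Option ℕ) (v : V) (a : ℕ) : Prop :=
  c v = none ∧ a < k ∧ (∀ w, G.Adj v w → c w ≠ some a) ∧
    ∀ b, b < a → ∃ w, G.Adj v w ∧ c w = some b

/-- `Wins move t c`: in the game with the legal moves `move`, Alice wins from the position `c`,
where it is Alice's turn if `t = true` and Bob's turn if `t = false`.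
Alice wins when all vertices are colored, and Bob wins as soon as some uncolored vertex has no
legal color.  At her turn Alice needs one good move, and at Bob's turn all his moves must be good
for Alice. -/
inductive Wins (move : (V → Option ℕ) → V → ℕ → Prop) : Bool → (V → Option ℕ) → Prop
  | finished (t : Bool) (c : V → Option ℕ) (h : ∀ v, c v ≠ none) : Wins move t c
  | alice (c : V → Option ℕ) (notStuck : ∀ v, c v = none → ∃ a, move c v a)
      (v : V) (a : ℕ) (hm : move c v a) (h : Wins move false (Function.update c v (some a))) :
      Wins move true c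
  | bob (c : V → Option ℕ) (notStuck : ∀ v, c v = none → ∃ a, move c v a)
      (h : ∀ v a, move c v a → Wins move true (Function.update c v (some a))) :
      Wins move false c

/-- The game chromatic number: the least `k` for which Alice, moving first, wins the coloring game
with `k` colors. -/
noncomputable def gameChromaticNumber (G : SimpleGraph V) : ℕ :=
  sInf {k : ℕ | Wins (OrdinaryMove G k) true (fun _ => none)}

/-- The game Grundy number: the least `k` for which Alice, moving first, wins the greedy coloring
game with `k` colors. -/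
noncomputable def gameGrundyNumber (G : SimpleGraph V) : ℕ :=
  sInf {k : ℕ | Wins (GreedyMove G k) true (fun _ => none)}

end Definitions

section
variable {V : Type} [Fintype V] [DecidableEq V] {G : SimpleGraph V}

theorem move_unique {k l : ℕ} {c : V → Option ℕ} {v : V} {a b : ℕ} (ha : GreedyMove G k c v a)
    (hb : c v = none ∧ (∀ w, G.Adj v w → c w ≠ some b) ∧ ∀ i, i < b → ∃ w, G.Adj v w ∧ c w = some i) :
    a = b := by
  rcases lt_trichotomy a b with h | h | h
  · obtain ⟨w, hw, hf⟩ := hb.2.2 a h
    exact absurd hf (ha.2.2.1 w hw)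
  · exact h
  · obtain ⟨w, hw, hf⟩ := ha.2.2.2 b h
    exact absurd hf (hb.2.1 w hw)

/-- the closed sets of positions of `Pool.Agent.Zhu` give wins in the sense of `Wins` -/
theorem wins_of_closed {k : ℕ} {W : Set (V → Option ℕ)} (hW : Zhu.Closed G k W) :
    ∀ (n : ℕ) (t : Bool) (f : V → Option ℕ), f ∈ W →
      (Finset.univ.filter (fun v => f v = none)).card = n →
      (t = true ↔ Even (Finset.univ.filter (fun v => f v ≠ none)).card) →
      Wins (OrdinaryMove G k) t f := by
  intro n
  induction n using Nat.strong_induction_on with
  | _ n ih =>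
    intro t f hf hn ht
    by_cases hfull : ∀ v, f v ≠ none
    · exact Wins.finished t f hfull
    have hav : ∀ v, f v = none → ∃ a, OrdinaryMove G k f v a := by
      intro v hv
      obtain ⟨a, ha⟩ := Zhu.avail hW _ f hf rfl v hv
      exact ⟨a, ha⟩
    have hex : ∃ v c, Zhu.Legal G k f v c := by
      by_contra h
      exact hfull ((hW f hf).1 h)
    cases t with
    | true =>
      have he := ht.1 rfl
      obtain ⟨v, a, hl, hu⟩ := (hW f hf).2.1 he hex
      refine Wins.alice f hav v a hl ?_
      have hlt := Zhu.uncolored_lt hl
      rw [hn] at hlt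
      refine ih _ hlt false _ hu rfl ?_
      rw [Zhu.colored_update hl, Nat.even_add_one]
      simp [he]
    | false =>
      have he : ¬ Even (Finset.univ.filter (fun v => f v ≠ none)).card := by
        intro h
        exact Bool.noConfusion (ht.2 h)
      refine Wins.bob f hav ?_
      intro v a hl
      have hu := (hW f hf).2.2 he v a hl
      have hlt := Zhu.uncolored_lt hl
      rw [hn] at hlt
      refine ih _ hlt true _ hu rfl ?_
      rw [Zhu.colored_update hl, Nat.even_add_one]
      simp [he]

theorem ordinary_of_aliceWins {k : ℕ} (h : Zhu.AliceWins G k) :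
    Wins (OrdinaryMove G k) true (fun _ => none) := by
  rw [Zhu.aliceWins_iff] at h
  obtain ⟨W, h0, hW⟩ := h
  exact wins_of_closed hW _ true _ h0 rfl (by simp)

theorem gwin_of_greedy {k : ℕ} (h : Wins (GreedyMove G k) true (fun _ => none)) :
    Zhu.GWin G k := by
  refine ⟨Wins (GreedyMove G k), h, ?_⟩
  intro t c hc
  cases hc with
  | finished _ _ h => exact Or.inl h
  | alice _ hs v a hm hw =>
    exact Or.inr (Or.inl ⟨rfl, v, a, hm.1, hm.2.1, hm.2.2.1, hm.2.2.2, hw⟩)
  | bob _ hs hw =>
    refine Or.inr (Or.inr ⟨rfl, ?_⟩)
    intro v a h1 h2 h3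
    obtain ⟨b, hb⟩ := hs v h1
    have hba : b = a := move_unique (l := k) hb ⟨h1, h2, h3⟩
    subst hba
    exact ⟨hb.2.1, hw v b hb⟩

/-- in the greedy game more colors do not hurt Alice -/
theorem greedy_mono {k l : ℕ} (hkl : k ≤ l) {t : Bool} {c : V → Option ℕ}
    (h : Wins (GreedyMove G k) t c) : Wins (GreedyMove G l) t c := by
  induction h with
  | finished t c h => exact Wins.finished t c h
  | alice c hs v a hm hw ih =>
    refine Wins.alice c ?_ v a ⟨hm.1, hm.2.1.trans_le hkl, hm.2.2⟩ ih
    intro w hw'
    obtain ⟨b, hb⟩ := hs w hw'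
    exact ⟨b, hb.1, hb.2.1.trans_le hkl, hb.2.2⟩
  | bob c hs hw ih =>
    refine Wins.bob c ?_ ?_
    · intro w hw'
      obtain ⟨b, hb⟩ := hs w hw'
      exact ⟨b, hb.1, hb.2.1.trans_le hkl, hb.2.2⟩
    · intro v a hm
      obtain ⟨b, hb⟩ := hs v hm.1
      have hba : b = a := move_unique (l := k) hb ⟨hm.1, hm.2.2⟩
      subst hba
      exact ih v b hb

/-- with as many colors as vertices there is always a legal move of the greedy game -/
theorem greedy_exists (c : V → Option ℕ) (v : V) (hv : c v = none) :
    ∃ a, GreedyMove G (Fintype.card V) c v a := by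
  obtain ⟨a, ha⟩ := Zhu.exists_gmove G c v hv
  refine ⟨a, hv, ?_, ha.2.1, ha.2.2⟩
  have h := ha.2.2
  haveI : Nonempty V := ⟨v⟩
  choose! w hw using h
  have hinj : Set.InjOn w (Finset.range a : Set ℕ) := by
    intro i hi j hj hij
    have h1 := (hw i (by simpa using hi)).2
    have h2 := (hw j (by simpa using hj)).2
    rw [hij, h2] at h1
    exact (Option.some.inj h1).symm
  have hcard : (Finset.range a).card = ((Finset.range a).image w).card :=
    (Finset.card_image_of_injOn hinj).symm
  have hsub : (Finset.range a).image w ⊆ Finset.univ.erase v := by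
    intro x hx
    rw [Finset.mem_image] at hx
    obtain ⟨i, hi, rfl⟩ := hx
    rw [Finset.mem_erase]
    refine ⟨?_, Finset.mem_univ _⟩
    intro hxv
    have h2 := (hw i (by simpa using hi)).2
    rw [hxv, hv] at h2
    simp at h2
  have h1 := Finset.card_le_card hsub
  rw [← hcard, Finset.card_range, Finset.card_erase_of_mem (Finset.mem_univ _), Finset.card_univ]
    at h1
  have h2 : 0 < Fintype.card V := Fintype.card_pos_iff.2 ⟨v⟩
  omega

theorem greedy_card (n : ℕ) : ∀ (t : Bool) (c : V → Option ℕ),
    (Finset.univ.filter (fun v => c v = none)).card = n →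
      Wins (GreedyMove G (Fintype.card V)) t c := by
  induction n using Nat.strong_induction_on with
  | _ n ih =>
    intro t c hn
    by_cases hfull : ∀ v, c v ≠ none
    · exact Wins.finished t c hfull
    push Not at hfull
    obtain ⟨v, hv⟩ := hfull
    have step : ∀ (t : Bool) (u : V) (a : ℕ), GreedyMove G (Fintype.card V) c u a →
        Wins (GreedyMove G (Fintype.card V)) t (Function.update c u (some a)) := by
      intro t u a hm
      have hlt := Zhu.uncolored_lt (K := Fintype.card V) (G := G) (c := a)
        (f := c) (u := u) ⟨hm.1, hm.2.1, hm.2.2.1⟩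
      rw [hn] at hlt
      exact ih _ hlt t _ rfl
    cases t with
    | true =>
      obtain ⟨a, ha⟩ := greedy_exists (G := G) c v hv
      exact Wins.alice c (fun w hw => greedy_exists c w hw) v a ha (step false v a ha)
    | false => exact Wins.bob c (fun w hw => greedy_exists c w hw) (fun u a hm => step true u a hm)

/-- a win of Alice gives a proper coloring -/
theorem coloring_of_wins {k : ℕ} {t : Bool} {c : V → Option ℕ}
    (h : Wins (OrdinaryMove G k) t c) (h1 : ∀ v a, c v = some a → a < k)
    (h2 : ∀ v w a, G.Adj v w → c v = some a → c w ≠ some a) : G.Colorable k := by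
  have upd : ∀ (c : V → Option ℕ) (v : V) (a : ℕ), OrdinaryMove G k c v a →
      (∀ v a, c v = some a → a < k) → (∀ v w a, G.Adj v w → c v = some a → c w ≠ some a) →
      (∀ u b, Function.update c v (some a) u = some b → b < k) ∧
      (∀ u w b, G.Adj u w → Function.update c v (some a) u = some b →
        Function.update c v (some a) w ≠ some b) := by
    intro c v a hm h1 h2
    refine ⟨?_, ?_⟩
    · intro u b hu
      by_cases huv : u = v
      · subst huv
        rw [Function.update_self] at hu
        rw [← Option.some.inj hu]; exact hm.2.1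
      · rw [Function.update_of_ne huv] at hu
        exact h1 u b hu
    · intro u w b huw hu
      by_cases huv : u = v
      · subst huv
        rw [Function.update_self] at hu
        rw [← Option.some.inj hu, Function.update_of_ne huw.ne']
        exact hm.2.2 w huw
      · rw [Function.update_of_ne huv] at hu
        by_cases hwv : w = v
        · subst hwv
          rw [Function.update_self]
          intro hab
          rw [← Option.some.inj hab] at hu
          exact hm.2.2 u huw.symm hu
        · rw [Function.update_of_ne hwv]
          exact h2 u w b huw hu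
  induction h with
  | finished t c hfull =>
    have hsome : ∀ v, ∃ a, c v = some a := fun v => Option.ne_none_iff_exists'.1 (hfull v)
    choose g hg using hsome
    refine ⟨SimpleGraph.Coloring.mk (fun v => (⟨g v, h1 v _ (hg v)⟩ : Fin k)) ?_⟩
    intro v w hvw heq
    have : g v = g w := by simpa using heq
    exact h2 v w (g v) hvw (hg v) (by rw [hg w, this])
  | alice c hs v a hm hw ih =>
    obtain ⟨h3, h4⟩ := upd c v a hm h1 h2
    exact ih h3 h4
  | bob c hs hw ih =>
    by_cases hfull : ∀ v, c v ≠ none
    · have hsome : ∀ v, ∃ a, c v = some a := fun v => Option.ne_none_iff_exists'.1 (hfull v)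
      choose g hg using hsome
      refine ⟨SimpleGraph.Coloring.mk (fun v => (⟨g v, h1 v _ (hg v)⟩ : Fin k)) ?_⟩
      intro v w hvw heq
      have : g v = g w := by simpa using heq
      exact h2 v w (g v) hvw (hg v) (by rw [hg w, this])
    · push Not at hfull
      obtain ⟨v, hv⟩ := hfull
      obtain ⟨a, hm⟩ := hs v hv
      obtain ⟨h3, h4⟩ := upd c v a hm h1 h2
      exact ih v a hm h3 h4

end

theorem clique5 : Zhu.G11.IsClique (({0, 1, 2, 4, 10} : Finset (Fin 11)) : Set (Fin 11)) := by
  have h : ∀ u ∈ ({0, 1, 2, 4, 10} : Finset (Fin 11)), ∀ v ∈ ({0, 1, 2, 4, 10} : Finset (Fin 11)),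
      u ≠ v → (Zhu.get Zhu.gad u).testBit v = true := by decide +kernel
  intro u hu v hv huv
  rw [Zhu.g11_adj]
  exact h u (by simpa using hu) v (by simpa using hv) huv

/-- There is a graph on 11 vertices with game chromatic number 5 and game Grundy number at least 6,
so `Γ_g(G) ≤ χ_g(G)` does not hold for all graphs. -/
theorem result : ∃ G : SimpleGraph (Fin 11),
    gameChromaticNumber G = 5 ∧ 6 ≤ gameGrundyNumber G := by
  refine ⟨Zhu.G11, ?_, ?_⟩
  · have h5 : (5 : ℕ) ∈ {k : ℕ | Wins (OrdinaryMove Zhu.G11 k) true (fun _ => none)} :=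
      ordinary_of_aliceWins Zhu.alice5
    refine le_antisymm (Nat.sInf_le h5) ?_
    have hmem := Nat.sInf_mem ⟨5, h5⟩
    have hcol := coloring_of_wins (k := gameChromaticNumber Zhu.G11) hmem
      (fun v a h => by simp at h) (fun v w a _ h => by simp at h)
    have := SimpleGraph.IsClique.card_le_of_colorable clique5 hcol
    have hc : ({0, 1, 2, 4, 10} : Finset (Fin 11)).card = 5 := by decide
    rw [hc] at this
    exact this
  · have hne : {k : ℕ | Wins (GreedyMove Zhu.G11 k) true (fun _ => none)}.Nonempty :=
      ⟨_, greedy_card _ true _ rfl⟩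
    have hmem := Nat.sInf_mem hne
    by_contra hlt
    have hle : gameGrundyNumber Zhu.G11 ≤ 5 := by omega
    exact Zhu.not_gwin5 (gwin_of_greedy (greedy_mono hle hmem))

end Pool.Agent.Results.MP_e75014_co.GrundyAboveChromatic
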